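import Pool.Agent.Lib.MP_9cc147_pr.Cx.T.Geo

/-! Geometry of blocks: strips, the two arcs, corners of faces. -/

open scoped Classical Topology ComplexConjugate
open Finset MeasureTheory ProbabilityTheory Filter

noncomputable section
namespace Pool.Agent.Lib.MP_9cc147_pr.Cx.T

theorem mem_fat {l w : ℕ} {B p : P} : p ∈ fat l w B ↔
    B.1 * l - w ≤ p.1 ∧ p.1 ≤ (B.1 + 1) * l + w ∧ B.2 * l - w ≤ p.2 ∧ p.2 ≤ (B.2 + 1) * l + w := by
  simp [fat, and_assoc]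

theorem nb_up {L l : ℕ} (hL : 100 ≤ L) {a a' : P} (h : nr 8 a' a) :
    nb l a ⊆ nb (l * L) (par L a') := by
  have h0 : 0 < L := by omega
  have hw : 8 * l + l / 4 ≤ l * L / 4 := by
    have : l * 100 ≤ l * L := Nat.mul_le_mul_left _ hL
    omega
  have hw' : 8 * (l : ℤ) + (l / 4 : ℕ) ≤ (l * L / 4 : ℕ) := by exact_mod_cast hw
  have key : ∀ x x' y : ℤ, x' - x ≤ 8 → x - x' ≤ 8 → x * l - (l / 4 : ℕ) ≤ y →
      y ≤ (x + 1) * l + (l / 4 : ℕ) → x' / L * (l * L : ℕ) - (l * L / 4 : ℕ) ≤ y ∧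
        y ≤ (x' / L + 1) * (l * L : ℕ) + (l * L / 4 : ℕ) := fun x x' y e1 e2 e3 e4 => by
    have h1 := div_bd h0 x'
    have hl : (0 : ℤ) ≤ l := by positivity
    have a1 := mul_le_mul_of_nonneg_right (show x' / L * L - 8 ≤ x by omega) hl
    have a2 := mul_le_mul_of_nonneg_right (show x + 1 ≤ x' / L * L + L + 8 by omega) hl
    generalize ((l / 4 : ℕ) : ℤ) = u at *
    generalize ((l * L / 4 : ℕ) : ℤ) = w at *
    push_cast
    constructor <;> nlinarith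
  intro p hp
  rw [nb, mem_fat] at hp ⊢
  rw [nr_iff] at h
  have k1 := key _ _ _ h.1 h.2.1 hp.1 hp.2.1
  have k2 := key _ _ _ h.2.2.1 h.2.2.2 hp.2.2.1 hp.2.2.2
  exact ⟨k1.1, k1.2, k2.1, k2.2⟩

theorem n1_nn (v : Fld) (x : P) : 0 ≤ n1 v x := by unfold n1; positivity
theorem n2_nn (v : Fld) (x : P) : 0 ≤ n2 v x := by unfold n2; positivity
theorem Nf_mono {l l' : ℕ} (h : l ≤ l') (v : Fld) {S S' : Finset P} (hS : S ⊆ S') :
    Nf l v S ≤ Nf l' v S' := by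
  have := n1_nn v
  have := n2_nn v
  calc Nf l v S ≤ Nf l' v S := sum_le_sum fun p _ => by gcongr; exact n2_nn v p
    _ ≤ _ := sum_le_sum_of_subset_of_nonneg hS fun p _ _ => by
      have := n1_nn v p
      have := n2_nn v p
      positivity

theorem _root_.Pool.Agent.Lib.MP_9cc147_pr.Cx.t_T_strip : S_T_strip := by
  intro L n l h h' U X v hL hl hX
  have h0 : 0 < L := by omega
  have hs : nbs l X ⊆ nbs (l * L) U := fun p hp => by
    obtain ⟨a, ha, hp⟩ := mem_biUnion.1 hp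
    obtain ⟨a', ha', e⟩ := hX a ha
    exact mem_biUnion.2 ⟨_, (mem_under h0).1 ha', nb_up hL e hp⟩
  refine ⟨hs, fun ⟨h1, h2, c, h3, h4⟩ => ⟨fun B hB => ?_, fun p hp => h2 p (hs hp), c,
    fun hn => h3 (hn.mono (inter_subset_inter_right hs)), fun p hp => h4 p (hs hp)⟩⟩
  obtain ⟨a', ha', e⟩ := hX B hB
  exact (Nf_mono (Nat.le_mul_of_pos_right _ h0) v (nb_up hL e)).trans
    (h1 _ ((mem_under h0).1 ha'))

theorem spec_small {m : ℕ} (hm : 100 ≤ m) {X : Finset P} (hX : Pm m X) (h4 : X.card ≤ 4) {B : P}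
    (hB : B ∈ X) (h : spec m X) : ∃ B', ab m B' ∧ nr 5 B B' := by
  have hb := mem_box.1 (hX.1 hB)
  obtain ⟨h1, h2⟩ := h
  rcases h1 with h1 | h1 <;> rcases h2 with h2 | h2 <;> obtain ⟨a, ha, e⟩ := mem_sds.1 h1 <;>
    obtain ⟨a', ha', e'⟩ := mem_sds.1 h2 <;> simp at e e' <;>
    have k := nr_iff.1 (conn_nr hX.2 h4 hB ha) <;> have k' := nr_iff.1 (conn_nr hX.2 h4 hB ha')
  · exact ⟨_, Or.inl rfl, nr_iff.2 (by simp only; omega)⟩
  · omega
  · omega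
  · exact ⟨_, Or.inr rfl, nr_iff.2 (by simp only; omega)⟩

theorem lo_up {L : ℕ} (hL : 100 ≤ L) {x : ℤ} (h : 0 ≤ x) (h' : x ≤ 20) : x / L = 0 := by
  rw [div_iff (by omega)]; omega
theorem hi_up {L m : ℕ} (hL : 100 ≤ L) {x : ℤ} (h : x < (L * m : ℕ))
    (h' : ((L * m : ℕ) : ℤ) - 21 ≤ x) : x / L = m - 1 := by
  have hL' : (100 : ℤ) ≤ L := by exact_mod_cast hL
  rw [div_iff (by omega)]; push_cast at h h'; constructor <;> nlinarith

theorem ab_par {L m : ℕ} (hL : 100 ≤ L) {B B' : P} (hB : B ∈ box (L * m)) (h : ab (L * m) B')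
    (e : nr 13 B B') : ab m (par L B) := by
  rw [mem_box] at hB
  rw [nr_iff] at e
  rcases h with rfl | rfl <;> simp only at e
  · exact Or.inl (Prod.ext (lo_up hL hB.1 (by omega)) (lo_up hL hB.2.2.1 (by omega)))
  · exact Or.inr (Prod.ext (hi_up hL hB.2.1 (by omega)) (hi_up hL hB.2.2.2 (by omega)))

theorem ab_spec {m : ℕ} {U : Finset P} {B : P} (hB : B ∈ U) (h : ab m B) : spec m U := by
  rcases h with rfl | rfl
  · exact ⟨Or.inl (mem_sds.2 ⟨_, hB, rfl⟩), Or.inl (mem_sds.2 ⟨_, hB, rfl⟩)⟩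
  · exact ⟨Or.inr (mem_sds.2 ⟨_, hB, rfl⟩), Or.inr (mem_sds.2 ⟨_, hB, rfl⟩)⟩

theorem far_ab {L m : ℕ} (hL : 100 ≤ L) {U : Finset P} (hU : U ⊆ box m) (h : ¬ spec m U) {a a' : P}
    (ha' : a' ∈ under L U) (e : nr 8 a' a) : ∀ B', ab (L * m) B' → ¬ nr 5 a B' := fun _ hB e' =>
  have h1 := (mem_under (by omega)).1 ha'
  h (ab_spec h1 (ab_par hL ((par_box (by omega)).1 (hU h1)) hB (nr_trans e e' (by norm_num))))

theorem far_spec {L m : ℕ} (hL : 100 ≤ L) {U X : Finset P} (hU : U ⊆ box m) (h : ¬ spec m U)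
    (hX : ∀ a ∈ X, ∃ a' ∈ under L U, nr 8 a' a) : ¬ spec (L * m) X := by
  have h0 : 0 < L := by omega
  have key : sds (L * m) X ⊆ sds m U := fun i hi => by
    obtain ⟨B, hB, e⟩ := mem_sds.1 hi
    obtain ⟨a', ha', h3⟩ := hX B hB
    have h1 := (mem_under h0).1 ha'
    have h2 := mem_box.1 ((par_box h0).1 (hU h1))
    rw [nr_iff] at h3
    refine mem_sds.2 ⟨par L a', h1, ?_⟩
    fin_cases i
    · have e' : B.1 = 0 := e
      exact lo_up hL h2.1 (by omega)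
    · have e' : B.2 = (L * m : ℕ) - 1 := e
      exact hi_up hL h2.2.2.2 (by omega)
    · have e' : B.2 = 0 := e
      exact lo_up hL h2.2.2.1 (by omega)
    · have e' : B.1 = (L * m : ℕ) - 1 := e
      exact hi_up hL h2.2.1 (by omega)
  exact fun ⟨h1, h2⟩ => h ⟨h1.imp (key ·) (key ·), h2.imp (key ·) (key ·)⟩

/-- the corners of the faces of a block of the box lie in the square, near the block -/
theorem crn_mem {l m : ℕ} {B x : P} (hB : B ∈ box m) (hx : x ∈ cell l B) (d : Fin 4) :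
    x + crn d ∈ nb l B ∧ x + crn d ∈ sqr (l * m) := by
  rw [mem_box] at hB
  simp only [cell, mem_product, mem_Ico] at hx
  have hl : (0 : ℤ) ≤ l := by positivity
  have hw : (0 : ℤ) ≤ (l / 4 : ℕ) := by positivity
  have a1 := mul_nonneg hB.1 hl
  have a2 := mul_nonneg hB.2.2.1 hl
  have a3 := mul_le_mul_of_nonneg_right (show B.1 + 1 ≤ m by omega) hl
  have a4 := mul_le_mul_of_nonneg_right (show B.2 + 1 ≤ m by omega) hl
  have k : 0 ≤ (crn d).1 ∧ (crn d).1 ≤ 1 ∧ 0 ≤ (crn d).2 ∧ (crn d).2 ≤ 1 := by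
    fin_cases d <;> simp [crn]
  simp only [nb, mem_fat, sqr, mem_product, mem_Icc, Prod.fst_add, Prod.snd_add, Nat.cast_mul,
    mul_comm (l : ℤ)]
  omega

theorem En_congr {Θ Ξ : Fld} {S : Finset P} (h : ∀ x ∈ S, ∀ d, Θ (x + crn d) = Ξ (x + crn d)) :
    En Θ S = En Ξ S :=
  sum_congr rfl fun x hx => by simp only [dg, h x hx]

end Pool.Agent.Lib.MP_9cc147_pr.Cx.T
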