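import Pool.Agent.Lib.MP_9cc147_pr.Cx.T.S

/-! Geometry of blocks: parents, moves, distances, transfer between scales. -/

open scoped Classical Topology ComplexConjugate
open Finset MeasureTheory ProbabilityTheory Filter

noncomputable section
namespace Pool.Agent.Lib.MP_9cc147_pr.Cx.T

theorem mem_box {m : ℕ} {a : P} : a ∈ box m ↔ 0 ≤ a.1 ∧ a.1 < m ∧ 0 ≤ a.2 ∧ a.2 < m := by
  simp [box, and_assoc]

theorem div_iff {L : ℕ} (hL : 0 < L) (x k : ℤ) : x / L = k ↔ k * L ≤ x ∧ x < (k + 1) * L := by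
  have h : (0 : ℤ) < L := by exact_mod_cast hL
  rw [← Int.le_ediv_iff_mul_le h, ← Int.ediv_lt_iff_lt_mul h]; omega

theorem div_bd {L : ℕ} (hL : 0 < L) (x : ℤ) : x / L * L ≤ x ∧ x < x / L * L + L := by
  have := (div_iff hL x _).1 rfl; constructor <;> linarith [this.1, this.2]

theorem mem_cell {L : ℕ} (hL : 0 < L) {a B : P} : a ∈ cell L B ↔ par L a = B := by
  simp only [cell, par, mem_product, mem_Ico, Prod.ext_iff, div_iff hL]

theorem mem_under {L : ℕ} (hL : 0 < L) {a : P} {U : Finset P} : a ∈ under L U ↔ par L a ∈ U := by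
  simp [under, mem_cell hL]

theorem par_box {L m : ℕ} (hL : 0 < L) {a : P} : par L a ∈ box m ↔ a ∈ box (L * m) := by
  have h : (0 : ℤ) < L := by exact_mod_cast hL
  simp only [mem_box, par, Int.le_ediv_iff_mul_le h, Int.ediv_lt_iff_lt_mul h, zero_mul]
  push_cast; rw [mul_comm (L : ℤ)]

theorem under_box {L m : ℕ} (hL : 0 < L) : under L (box m) = box (L * m) := by
  ext a; rw [mem_under hL, par_box hL]

theorem under_mono {L : ℕ} {U V : Finset P} (h : U ⊆ V) : under L U ⊆ under L V :=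
  biUnion_subset_biUnion_of_subset_left _ h

theorem near_sub {k : ℕ} {R X : Finset P} : near k R X ⊆ R := filter_subset _ _
theorem mem_near {k : ℕ} {R X : Finset P} {b : P} :
    b ∈ near k R X ↔ b ∈ R ∧ ∃ a ∈ X, nr k a b := mem_filter
theorem nr_refl (k : ℕ) (a : P) : nr k a a := by simp [nr]
theorem nr_symm {k : ℕ} {a b : P} (h : nr k a b) : nr k b a := by
  unfold nr at *; rw [abs_sub_comm b.1, abs_sub_comm b.2]; exact h
theorem nr_iff {k : ℕ} {a b : P} : nr k a b ↔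
    a.1 - b.1 ≤ k ∧ b.1 - a.1 ≤ k ∧ a.2 - b.2 ≤ k ∧ b.2 - a.2 ≤ k := by
  simp only [nr, abs_le]; omega
theorem nr_trans {k k' k'' : ℕ} {a b c : P} (h : nr k a b) (h' : nr k' b c) (e : k + k' ≤ k'') :
    nr k'' a c := by
  rw [nr_iff] at *; omega
theorem near_mono {k : ℕ} {R X Y : Finset P} (h : X ⊆ Y) : near k R X ⊆ near k R Y := fun _ hb =>
  let ⟨h1, a, ha, h2⟩ := mem_near.1 hb; mem_near.2 ⟨h1, a, h ha, h2⟩

theorem ok_pred {b : ℕ × ℕ} {j : ℕ} (h : Par.ok b (j + 1)) : Par.ok b j :=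
  ⟨h.1, by have := h.2.1; omega, h.2.2⟩
theorem m_succ (q : Par) {b : ℕ × ℕ} {j : ℕ} (h : Par.ok b (j + 1)) :
    q.m b j = q.L * q.m b (j + 1) := by
  have := h.2.1
  unfold Par.m
  rw [show b.2 + 1 - j = b.2 + 1 - (j + 1) + 1 by omega, pow_succ]; ring
theorem n_eq (q : Par) {b : ℕ × ℕ} {j : ℕ} (h : Par.ok b j) : q.n b = q.l j * q.m b j := by
  have := h.2.1
  unfold Par.m Par.n Par.l
  rw [show b.2 + 2 = (j + 1) + (b.2 + 1 - j) by omega, pow_add]; ring
theorem l_succ (q : Par) (j : ℕ) : q.l (j + 1) = q.l j * q.L := by simp [Par.l, pow_succ]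
theorem l_pos (q : Par) (h : 100 ≤ q.L) (j : ℕ) : 1 ≤ q.l j := Nat.one_le_pow _ _ (by omega)
theorem m_ge (q : Par) (hL : 100 ≤ q.L) {b : ℕ × ℕ} {j : ℕ} (h : Par.ok b j) : 100 ≤ q.m b j := by
  have h1 := h.2.1
  have h2 : 1 ≤ b.1 := by rcases h.1 with h | h <;> omega
  unfold Par.m
  calc 100 ≤ q.L := hL
    _ ≤ q.L ^ (b.2 + 1 - j) := Nat.le_self_pow (by omega) _
    _ ≤ _ := Nat.le_mul_of_pos_left _ h2
theorem n_pos (q : Par) (hL : 100 ≤ q.L) {b : ℕ × ℕ} {j : ℕ} (h : Par.ok b j) : 1 ≤ q.n b := by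
  rw [n_eq q h]; exact Nat.mul_pos (l_pos q hL j) (by have := m_ge q hL h; omega)
theorem reg_box (q : Par) (hL : 100 ≤ q.L) {b : ℕ × ℕ} {j : ℕ} (h : Par.ok b (j + 1))
    (U : Finset P) : reg q.L (box (q.m b (j + 1))) U ⊆ box (q.m b j) := by
  rw [m_succ q h, ← under_box (by omega)]; exact under_mono near_sub

theorem ivt (f : P → ℤ) (hf : ∀ a b, nr 1 a b → |f a - f b| ≤ 1) {X : Finset P} {a b : P}
    (ha : a ∈ X) (h : Relation.ReflTransGen (lnk X) a b) :
    ∀ k, (f a ≤ k ∧ k ≤ f b ∨ f b ≤ k ∧ k ≤ f a) → ∃ c ∈ X, f c = k := by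
  induction h with
  | refl => intro k hk; exact ⟨a, ha, by omega⟩
  | @tail c d _ h2 ih =>
    intro k hk
    by_cases e : f d = k
    · exact ⟨d, h2.2.1, e⟩
    · have := abs_le.1 (hf _ _ h2.2.2)
      exact ih k (by omega)

theorem conn_f (f : P → ℤ) (hf : ∀ a b, nr 1 a b → |f a - f b| ≤ 1) {X : Finset P} (hX : Conn X)
    {a b : P} (ha : a ∈ X) (hb : b ∈ X) : f b - f a < X.card := by
  have h : Icc (f a) (f b) ⊆ X.image f := fun k hk => by
    obtain ⟨c, hc, e⟩ := ivt f hf ha (hX.2 a ha b hb) k (Or.inl (mem_Icc.1 hk))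
    exact mem_image.2 ⟨c, hc, e⟩
  have h1 := (card_le_card h).trans card_image_le
  rw [Int.card_Icc] at h1
  have := card_pos.2 hX.1
  omega

theorem conn_nr {X : Finset P} (hX : Conn X) (h4 : X.card ≤ 4) {a b : P} (ha : a ∈ X)
    (hb : b ∈ X) : nr 3 a b := by
  have h1 := conn_f Prod.fst (fun _ _ h => h.1) hX ha hb
  have h2 := conn_f Prod.fst (fun _ _ h => h.1) hX hb ha
  have h3 := conn_f Prod.snd (fun _ _ h => h.2) hX ha hb
  have h4 := conn_f Prod.snd (fun _ _ h => h.2) hX hb ha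
  rw [nr_iff]; omega

/-- the move on faces as a bijection -/
def fE (g : Sy) (c : P) : P ≃ P where
  toFun := fm g c
  invFun y :=
    let u := (if g.f1 then -1 else 1) * (y.1 - c.1 + if g.f1 then 1 else 0)
    let w := (if g.f2 then -1 else 1) * (y.2 - c.2 + if g.f2 then 1 else 0)
    if g.sw then (w, u) else (u, w)
  left_inv x := by
    obtain ⟨a, b, d⟩ := g
    cases a <;> cases b <;> cases d <;> simp [fm, vm, Prod.ext_iff] <;> omega
  right_inv x := by
    obtain ⟨a, b, d⟩ := g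
    cases a <;> cases b <;> cases d <;> simp [fm, vm, Prod.ext_iff] <;> omega
theorem fE_coe (g : Sy) (c : P) : ⇑(fE g c) = fm g c := rfl
theorem fm_inj (g : Sy) (c : P) : Function.Injective (fm g c) := (fE g c).injective

theorem nr_fm (k : ℕ) (g : Sy) (c a b : P) : nr k (fm g c a) (fm g c b) ↔ nr k a b := by
  obtain ⟨x, y, d⟩ := g
  cases x <;> cases y <;> cases d <;> simp [fm, vm, nr_iff] <;> omega

theorem div_pos {L : ℕ} (hL : 0 < L) (x c : ℤ) : (x + L * c) / L = x / L + c := by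
  have := div_bd hL x
  rw [div_iff hL]; constructor <;> nlinarith [this.1, this.2]
theorem div_neg' {L : ℕ} (hL : 0 < L) (x c : ℤ) : (-x + L * c - 1) / L = -(x / L) + c - 1 := by
  have := div_bd hL x
  rw [div_iff hL]; constructor <;> nlinarith [this.1, this.2]

theorem par_fm {L : ℕ} (hL : 0 < L) (g : Sy) (c a : P) :
    par L (fm g (smul L c) a) = fm g c (par L a) := by
  obtain ⟨x, y, d⟩ := g
  cases x <;> cases y <;> cases d <;>
    simp [fm, vm, par, smul, div_pos hL, div_neg' hL]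

theorem cell_fm {L : ℕ} (hL : 0 < L) (g : Sy) (c B : P) :
    cell L (fm g c B) = (cell L B).image (fm g (smul L c)) := by
  ext a
  obtain ⟨a, rfl⟩ := (fE g (smul L c)).surjective a
  rw [fE_coe, (fm_inj g _).mem_finset_image, mem_cell hL, mem_cell hL, par_fm hL,
    (fm_inj g c).eq_iff]

theorem smul_smul' (l L : ℕ) (c : P) : smul l (smul L c) = smul (l * L) c := by
  simp [smul, mul_assoc]

theorem pm_smul {L : ℕ} (hL : Odd L) (g : Sy) (c : P) : pm g (smul L c) = pm g c := by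
  have h : ¬ Even (L : ℤ) := by
    rw [Int.even_coe_nat]; exact Nat.not_even_iff_odd.2 hL
  have h' : Odd (L : ℤ) := Int.not_even_iff_odd.1 h
  ext1 s
  unfold pm
  congr 1
  obtain ⟨x, y, d⟩ := g
  cases x <;> cases y <;> cases d <;> simp [fm, vm, smul, parity_simps, h, Int.odd_mul, h']

theorem pm_zero (g : Sy) (c : P) : pm g c 0 = 0 := by
  unfold pm; split_ifs
  · rfl
  · decide
/-- the move on phases as a bijection -/
def pE (g : Sy) (c : P) : Lab ≃ Lab :=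
  if Even ((fm g c 0).1 + (fm g c 0).2) then Equiv.refl _ else Equiv.swap 1 2
theorem pE_coe (g : Sy) (c : P) : ⇑(pE g c) = pm g c := by
  ext1 s; unfold pE pm; split_ifs <;> rfl
theorem lam_pm {f : Lab → ℝ} (h : f 1 = f 2) (g : Sy) (c : P) (s : Lab) : f (pm g c s) = f s := by
  unfold pm; split_ifs
  · rfl
  · fin_cases s
    · exact congrArg f (by decide)
    · exact (congrArg f (by decide : Equiv.swap (1 : Lab) 2 1 = 2)).trans h.symm
    · exact (congrArg f (by decide : Equiv.swap (1 : Lab) 2 2 = 1)).trans h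

theorem En_fm {l : ℕ} (hl : 0 < l) (g : Sy) (c B : P) (Θ : Fld) :
    En Θ (cell l (fm g c B)) = En (Θ ∘ vm g (smul l c)) (cell l B) := by
  rw [cell_fm hl, En, sum_image fun _ _ _ _ h => fm_inj _ _ h]
  refine sum_congr rfl fun x _ => ?_
  generalize smul l c = c'
  obtain ⟨a, b, d⟩ := g
  obtain ⟨x1, x2⟩ := x
  obtain ⟨c1, c2⟩ := c'
  cases a <;> cases b <;> cases d <;>
    simp [fm, vm, dg, crn, Fin.sum_univ_four] <;> ring_nf

theorem par_nr {L : ℕ} (hL : 100 ≤ L) {a b : P} (h : nr 10 a b) : nr 1 (par L a) (par L b) := by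
  have h0 : 0 < L := by omega
  have hL' : (100 : ℤ) ≤ L := by exact_mod_cast hL
  have key : ∀ x y : ℤ, x - y ≤ 10 → x / L - y / L ≤ 1 := fun x y e => by
    have h1 := div_bd h0 x
    have h2 := div_bd h0 y
    by_contra hc
    have : y / L + 2 ≤ x / L := by omega
    nlinarith [h1.1, h2.2]
  rw [nr_iff] at *
  exact ⟨key _ _ h.1, key _ _ h.2.1, key _ _ h.2.2.1, key _ _ h.2.2.2⟩

theorem mem_sds {m : ℕ} {X : Finset P} {i : Fin 4} : i ∈ sds m X ↔
    ∃ B ∈ X, ![B.1 = 0, B.2 = m - 1, B.2 = 0, B.1 = m - 1] i := by simp [sds]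
theorem sds_mono {m : ℕ} {X Y : Finset P} (h : X ⊆ Y) : sds m X ⊆ sds m Y := fun _ hi =>
  let ⟨B, hB, e⟩ := mem_sds.1 hi; mem_sds.2 ⟨B, h hB, e⟩

theorem sds_down {L m : ℕ} (hL : 100 ≤ L) {U V : Finset P}
    (hV : ∀ a ∈ V, ∃ a' ∈ under L U, nr 8 a' a) :
    sds (L * m) (near 1 (box (L * m)) V) ⊆ sds m (near 1 (box m) U) := by
  have h0 : 0 < L := by omega
  have hL' : (100 : ℤ) ≤ L := by exact_mod_cast hL
  intro i hi
  obtain ⟨B, hB, e⟩ := mem_sds.1 hi
  obtain ⟨h1, a, ha, h2⟩ := mem_near.1 hB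
  obtain ⟨a', ha', h3⟩ := hV a ha
  refine mem_sds.2 ⟨par L B, mem_near.2 ⟨(par_box h0).2 h1, par L a', (mem_under h0).1 ha',
    par_nr hL (nr_trans h3 h2 (by norm_num))⟩, ?_⟩
  have k : ((L * m : ℕ) - 1 : ℤ) / L = m - 1 := by
    rw [div_iff h0]; push_cast; constructor <;> nlinarith
  fin_cases i <;> simp [par] at e ⊢ <;> rw [e]
  · simp
  · simpa using k
  · simp
  · simpa using k

theorem Mv_mono {m m' : ℕ} {g : Sy} {c : P} {U V : Finset P} (h : Mv m m' g c U) (hV : V ⊆ U) :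
    Mv m m' g c V :=
  ⟨fun B ⟨a, ha, e⟩ => h.1 B ⟨a, hV ha, e⟩,
    (card_le_card (sds_mono (near_mono hV))).trans h.2.1,
    (card_le_card (sds_mono (near_mono (image_subset_image hV)))).trans h.2.2⟩

theorem Mv_down {L m m' : ℕ} (hL : 100 ≤ L) {g : Sy} {c : P} {U V : Finset P}
    (h : Mv m m' g c U) (hV : ∀ a ∈ V, ∃ a' ∈ under L U, nr 8 a' a) :
    Mv (L * m) (L * m') g (smul L c) V := by
  have h0 : 0 < L := by omega
  refine ⟨fun B ⟨a, ha, e⟩ => ?_, (card_le_card (sds_down hL hV)).trans h.2.1,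
    (card_le_card (sds_down hL fun a ha => ?_)).trans h.2.2⟩
  · obtain ⟨a', ha', h3⟩ := hV a ha
    rw [← par_box h0, ← par_box h0, par_fm h0]
    exact h.1 _ ⟨par L a', (mem_under h0).1 ha', par_nr hL (nr_trans h3 e (by norm_num))⟩
  · obtain ⟨a0, ha0, rfl⟩ := mem_image.1 ha
    obtain ⟨a', ha', h3⟩ := hV a0 ha0
    refine ⟨fm g (smul L c) a', ?_, (nr_fm _ _ _ _ _).2 h3⟩
    rw [mem_under h0, par_fm h0]
    exact mem_image_of_mem _ ((mem_under h0).1 ha')

theorem Mv_near {m m' : ℕ} {g : Sy} {c : P} {U : Finset P} (h : Mv m m' g c U) :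
    near 1 (box m') (U.image (fm g c)) = (near 1 (box m) U).image (fm g c) := by
  ext a
  obtain ⟨a, rfl⟩ := (fE g c).surjective a
  rw [fE_coe, (fm_inj g _).mem_finset_image, mem_near, mem_near]
  constructor
  · rintro ⟨h1, b, hb, e⟩
    obtain ⟨b0, hb0, rfl⟩ := mem_image.1 hb
    rw [nr_fm] at e
    exact ⟨(h.1 a ⟨b0, hb0, e⟩).2 h1, b0, hb0, e⟩
  · rintro ⟨h1, b, hb, e⟩
    exact ⟨(h.1 a ⟨b, hb, e⟩).1 h1, _, mem_image_of_mem _ hb, (nr_fm _ _ _ _ _).2 e⟩

theorem Mv_corner {m : ℕ} {U : Finset P} {B : P} (hB : B ∈ U) (hb : B ∈ box m)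
    (h : (sds m (near 1 (box m) U)).card ≤ 1) : ¬ corner m B := by
  rintro ⟨h1, h2⟩
  have hn : B ∈ near 1 (box m) U := mem_near.2 ⟨hb, B, hB, nr_refl _ _⟩
  rw [card_le_one] at h
  have k := fun i i' e e' => h i (mem_sds.2 ⟨B, hn, e⟩) i' (mem_sds.2 ⟨B, hn, e'⟩)
  rcases h1 with h1 | h1 <;> rcases h2 with h2 | h2
  · exact absurd (k 0 2 h1 h2) (by decide)
  · exact absurd (k 0 1 h1 h2) (by decide)
  · exact absurd (k 3 2 h1 h2) (by decide)
  · exact absurd (k 3 1 h1 h2) (by decide)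

end Pool.Agent.Lib.MP_9cc147_pr.Cx.T
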