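import Pool.Agent.Lib.MP_9cc147_pr.Cx.T.S

/-! Holomorphy under the integral sign. -/

open scoped Classical Topology
open MeasureTheory Filter Metric

noncomputable section
namespace Pool.Agent.Lib.MP_9cc147_pr.Cx

theorem t_T_hol : S_T_hol := by
  intro μ O F hO hm hd hg s0 hs0
  obtain ⟨g, gi, hb⟩ := hg s0 hs0
  obtain ⟨r, r0, hr⟩ := Metric.eventually_nhds_iff_ball.1 (hb.and (hO.mem_nhds hs0))
  have sub : ∀ s ∈ ball s0 (r / 2), closedBall s (r / 4) ⊆ ball s0 r := fun s hs y hy => by
    rw [mem_ball] at *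
    rw [mem_closedBall] at hy
    linarith [dist_triangle y s s0]
  have da : ∀ ω, ∀ s ∈ ball s0 r, DifferentiableAt ℂ (fun s => F s ω) s := fun ω s hs =>
    (hd ω).differentiableAt (hO.mem_nhds (hr s hs).2)
  have u0 : Tendsto (fun n : ℕ => ((r / 2 * (1 / ((n : ℝ) + 1)) : ℝ) : ℂ)) atTop (𝓝[≠] 0) := by
    refine tendsto_nhdsWithin_iff.2 ⟨?_, .of_forall fun n => ?_⟩
    · have := (Complex.continuous_ofReal.tendsto _).comp
        ((tendsto_one_div_add_atTop_nhds_zero_nat (𝕜 := ℝ)).const_mul (r / 2))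
      simpa [Function.comp_def] using this
    · have : 0 < r / 2 * (1 / ((n : ℝ) + 1)) := by positivity
      exact Complex.ofReal_ne_zero.2 this.ne'
  have dm : Measurable fun ω => deriv (fun s => F s ω) s0 := by
    refine measurable_of_tendsto_metrizable (f := fun (n : ℕ) ω =>
      ((r / 2 * (1 / ((n : ℝ) + 1)) : ℝ) : ℂ)⁻¹ •
        (F (s0 + ((r / 2 * (1 / ((n : ℝ) + 1)) : ℝ) : ℂ)) ω - F s0 ω)) (fun n => ?_)
      (tendsto_pi_nhds.2 fun ω =>
        (da ω s0 (mem_ball_self r0)).hasDerivAt.tendsto_slope_zero.comp u0)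
    refine ((hm _ (hr _ ?_).2).sub (hm s0 hs0)).const_mul _
    have h1 : 0 < r / 2 * (1 / ((n : ℝ) + 1)) := by positivity
    have h2 : 1 / ((n : ℝ) + 1) ≤ 1 := by
      rw [div_le_one (by positivity)]; linarith [Nat.cast_nonneg (α := ℝ) n]
    rw [mem_ball, dist_eq_norm, add_sub_cancel_left, Complex.norm_real, Real.norm_eq_abs,
      abs_of_pos h1]
    nlinarith
  refine (hasDerivAt_integral_of_dominated_loc_of_deriv_le (μ := μ) (F := F)
    (F' := fun s ω => deriv (fun s => F s ω) s) (bound := fun ω => g ω / (r / 4))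
    (ball_mem_nhds s0 (half_pos r0))
    ((hO.eventually_mem hs0).mono fun s hs => (hm s hs).aestronglyMeasurable)
    (gi.mono' (hm s0 hs0).aestronglyMeasurable
      (.of_forall fun ω => (hr s0 (mem_ball_self r0)).1 ω))
    dm.aestronglyMeasurable (.of_forall fun ω s hs => ?_) (gi.div_const _)
    (.of_forall fun ω s hs => (da ω s (ball_subset_ball (by linarith) hs)).hasDerivAt)
      ).2.differentiableAt.differentiableWithinAt
  refine Complex.norm_deriv_le_of_forall_mem_sphere_norm_le (by positivity)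
    (DifferentiableOn.diffContOnCl ?_) fun y hy => (hr y (sub s hs (sphere_subset_closedBall hy))).1 ω
  rw [closure_ball _ (by positivity)]
  exact fun y hy => (da ω y (sub s hs hy)).differentiableWithinAt

end Pool.Agent.Lib.MP_9cc147_pr.Cx
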