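import Pool.Agent.Lib.MP_9cc147_pr.Cx.K0

/-! Shared statements of the module T: majorant and measurability of the local sums. -/

open scoped Classical Topology ComplexConjugate
open Finset MeasureTheory ProbabilityTheory Filter

noncomputable section
namespace Pool.Agent.Lib.MP_9cc147_pr.Cx

/-- exponent of the noise majorant on the fine blocks `S` (as in `S_zmom`) -/
def Par.Wz (q : Par) (b : ℕ × ℕ) (j : ℕ) (S : Finset P) (ω : Om) : ℝ :=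
  q.L * q.κ * ∑ B ∈ S, N0 (q.l j) (cf (zeta q.L (q.n b) j ω)) (nb (q.l j) B)
/-- integrand of `rb0` in the step -/
def Par.J0 (q : Par) (j : ℕ) (x : State) (b : ℕ × ℕ) (z : ℂ) (U : Finset P) (s : Lab) (Θ : Fld)
    (ω : Om) : ℂ :=
  L0 q.L 4 (box (q.m b (j + 1))) U (q.inp j x b z Θ).It ((q.inp j x b z Θ).M ω)
    ((q.inp j x b z Θ).K ω) s
/-- integrand of `rb1` in the step -/
def Par.J1 (q : Par) (j : ℕ) (x : State) (b : ℕ × ℕ) (z : ℂ) (U : Finset P)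
    (σ : P → Option Lab) (Θ : Fld) (ω : Om) : ℂ :=
  L1 q.L 4 (box (q.m b (j + 1))) U
    (fun s B => Complex.exp (-(q.inp j x b z Θ).d s B) * (q.inp j x b z Θ).It s B)
    ((q.inp j x b z Θ).M ω) ((q.inp j x b z Θ).K ω) ((q.inp j x b z Θ).N ω) σ

/-- a coarse strip is a fine strip -/
def S_T_strip : Prop := ∀ (L n l : ℕ) (h h' : ℝ) (U X : Finset P) (v : Fld), 100 ≤ L → 1 ≤ l →
  (∀ a ∈ X, ∃ a' ∈ under L U, nr 8 a' a) →
  nbs l X ⊆ nbs (l * L) U ∧ (Strip n (l * L) h h' U v → Strip n l h h' X v)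

/-- one majorant, uniform over all good states with bounded extracted constants -/
def S_T_maj : Prop := ∀ᶠ q in FP, ∀ (t0 : ℝ) (j : ℕ) (α ν ρ : ℝ) (b : ℕ × ℕ) (θ : P → ℝ)
  (U : Finset P) (M : ℝ), Par.ok b (j + 1) → Pm (q.m b (j + 1)) U → Dir (q.n b) θ →
  reg q.L (box (q.m b (j + 1))) U ⊆ box (q.m b j) ∧
  Integrable (fun ω => Real.exp (q.Wz b j (reg q.L (box (q.m b (j + 1))) U) ω)) PP ∧
  ∃ c : ℝ, ∀ x z v, q.Good t0 j x α ν ρ → ‖z‖ ≤ t0 →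
    Strip (q.n b) (q.l (j + 1)) q.h (q.L * q.h) U v →
    (∀ s, ∀ B ∈ box (q.m b j), ‖q.e j x b z s B‖ ≤ M) → (∀ s, |q.lam' j x s| ≤ M) → ∀ ω,
    (∀ s, ‖q.J0 j x b z U s (bg (q.n b) z + cf θ + v) ω‖ ≤
      c * Real.exp (q.Wz b j (reg q.L (box (q.m b (j + 1))) U) ω)) ∧
    ∀ σ, ‖q.J1 j x b z U σ (bg (q.n b) z + cf θ + v) ω‖ ≤
      c * Real.exp (q.Wz b j (reg q.L (box (q.m b (j + 1))) U) ω)

/-- joint measurability -/
def S_T_meas : Prop := ∀ (q : Par) (t0 : ℝ) (j : ℕ) (x : State) (b : ℕ × ℕ) (z : ℂ) (U : Finset P),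
  100 ≤ q.L → q.Str t0 j x → Par.ok b (j + 1) → Pm (q.m b (j + 1)) U →
  (∀ s, Measurable fun y : Fld × Om => q.J0 j x b z U s y.1 y.2) ∧
  ∀ σ, Measurable fun y : Fld × Om => q.J1 j x b z U σ y.1 y.2

/-- a subring of functions that contains the atoms contains the local sums (use it for
continuity, holomorphy, measurability, dependence on part of the data) -/
def S_T_mem : Prop := ∀ (Y : Type) (A : Subalgebra ℂ (Y → ℂ)) (L s0 : ℕ) (D U : Finset P)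
  (T M : Y → Lab → P → ℂ) (K : Y → Lab → Finset P → ℂ)
  (N : Y → Finset P → (P → Option Lab) → ℂ), 2 * s0 + 1 ≤ L → U ⊆ D → U.Nonempty →
  (∀ s, ∀ B ∈ under L U, (fun y => T y s B) ∈ A ∧ (fun y => M y s B) ∈ A) →
  (∀ s X, Conn X → X ⊆ near s0 (reg L D U) (under L U) → (fun y => K y s X) ∈ A) →
  (∀ s, (fun y => L0 L s0 D U (T y) (M y) (K y) s) ∈ A) ∧
  ((∀ X σ, Conn X → X ⊆ under L U → (fun y => N y X σ) ∈ A) →
    ∀ σ, (fun y => L1 L s0 D U (T y) (M y) (K y) (N y) σ) ∈ A)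

/-- holomorphy under the integral sign -/
def S_T_hol : Prop := ∀ (μ : Measure Om) (O : Set ℂ) (F : ℂ → Om → ℂ), IsOpen O →
  (∀ s ∈ O, Measurable (F s)) → (∀ ω, DifferentiableOn ℂ (fun s => F s ω) O) →
  (∀ s0 ∈ O, ∃ g : Om → ℝ, Integrable g μ ∧ ∀ᶠ s in 𝓝 s0, ∀ ω, ‖F s ω‖ ≤ g ω) →
  DifferentiableOn ℂ (fun s => ∫ ω, F s ω ∂μ) O

end Pool.Agent.Lib.MP_9cc147_pr.Cx
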