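import Pool.Agent.Lib.MP_9cc147_pr.Cx.T.Mem

/-! The majorant of the integrands of one step, and their measurability. -/

open scoped Classical Topology ComplexConjugate
open Finset MeasureTheory ProbabilityTheory Filter

noncomputable section
namespace Pool.Agent.Lib.MP_9cc147_pr.Cx.T

theorem sq_add_le (a b : ℂ) : ‖a + b‖ ^ 2 ≤ 2 * ‖a‖ ^ 2 + 2 * ‖b‖ ^ 2 := by
  have := norm_add_le a b
  nlinarith [norm_nonneg (a + b), norm_nonneg a, norm_nonneg b, sq_nonneg (‖a‖ - ‖b‖)]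
theorem n1_add (v w : Fld) (x : P) : n1 (v + w) x ≤ 2 * n1 v x + 2 * n1 w x := by
  have : ∑ d, ‖dg (v + w) x d‖ ^ 2 ≤ ∑ d, (2 * ‖dg v x d‖ ^ 2 + 2 * ‖dg w x d‖ ^ 2) :=
    sum_le_sum fun d _ => by
      rw [show dg (v + w) x d = dg v x d + dg w x d by simp [dg]; ring]; exact sq_add_le _ _
  rw [sum_add_distrib, ← mul_sum, ← mul_sum] at this
  unfold n1; linarith
theorem n2_add (v w : Fld) (p : P) : n2 (v + w) p ≤ 2 * n2 v p + 2 * n2 w p := by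
  have k : ∀ a b c a' b' c' : ℂ, a + a' - 2 * (b + b') + (c + c') =
    (a - 2 * b + c) + (a' - 2 * b' + c') := fun _ _ _ _ _ _ => by ring
  have k' : ∀ a b c d a' b' c' d' : ℂ, a + a' - (b + b') - (c + c') + (d + d') =
    (a - b - c + d) + (a' - b' - c' + d') := fun _ _ _ _ _ _ _ _ => by ring
  unfold n2
  simp only [Pi.add_apply, k, k']
  linarith [sq_add_le (v (p + (1, 0)) - 2 * v p + v (p - (1, 0)))
    (w (p + (1, 0)) - 2 * w p + w (p - (1, 0))),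
    sq_add_le (v (p + (0, 1)) - 2 * v p + v (p - (0, 1)))
    (w (p + (0, 1)) - 2 * w p + w (p - (0, 1))),
    sq_add_le (v (p + (1, 1)) - v (p + (1, 0)) - v (p + (0, 1)) + v p)
    (w (p + (1, 1)) - w (p + (1, 0)) - w (p + (0, 1)) + w p)]
theorem cf_add (θ ξ : P → ℝ) : cf (θ + ξ) = cf θ + cf ξ := by ext p; simp [cf]
theorem cf_neg (θ : P → ℝ) : cf (-θ) = -cf θ := by ext p; simp [cf]
theorem dir_add {n : ℕ} {θ ξ : P → ℝ} (h : Dir n θ) (h' : Dir n ξ) : Dir n (θ + ξ) := fun p => by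
  obtain ⟨a, b, c, d⟩ := h p
  obtain ⟨a', b', c', d'⟩ := h' p
  simp only [Pi.add_apply, a, b, c, d, a', b', c', d']
  refine ⟨by ring, by ring, trivial, trivial⟩
theorem norm_En (Θ : Fld) (S : Finset P) : ‖En Θ S‖ ≤ ∑ x ∈ S, n1 Θ x := by
  refine (norm_sum_le _ _).trans (sum_le_sum fun x _ => ?_)
  rw [norm_mul, n1]
  refine mul_le_mul (by simp) ((norm_sum_le _ _).trans (le_of_eq ?_)) (norm_nonneg _) (by norm_num)
  simp
theorem n1_bg (n : ℕ) {z : ℂ} (hz : ‖z‖ ≤ 1) (x : P) : n1 (bg n z) x ≤ n1 (cf (uu n)) x := by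
  unfold n1
  refine mul_le_mul_of_nonneg_left (sum_le_sum fun d _ => ?_) (by norm_num)
  rw [show dg (bg n z) x d = z * dg (cf (uu n)) x d by simp [dg, bg, cf]; ring, norm_mul]
  exact pow_le_pow_left₀ (by positivity) (mul_le_of_le_one_left (norm_nonneg _) hz) 2
theorem cell_nb (l : ℕ) (B : P) : cell l B ⊆ nb l B := fun p hp => by
  simp only [cell, mem_product, mem_Ico] at hp
  have hw : (0 : ℤ) ≤ (l / 4 : ℕ) := by positivity
  rw [nb, mem_fat]; omega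
theorem Nf_nn (l : ℕ) (v : Fld) (S : Finset P) : 0 ≤ Nf l v S :=
  sum_nonneg fun p _ => by have := n1_nn v p; have := n2_nn v p; positivity
theorem n1_Nf (l : ℕ) (v : Fld) (B : P) : ∑ x ∈ cell l B, n1 v x ≤ Nf l v (nb l B) :=
  calc _ ≤ Nf l v (cell l B) := sum_le_sum fun p _ => by have := n2_nn v p; simp; positivity
    _ ≤ _ := Nf_mono le_rfl v (cell_nb l B)
theorem Nf_N0 (l : ℕ) (v : Fld) (S : Finset P) : Nf l v S ≤ N0 l v S :=
  le_add_of_nonneg_right (sum_nonneg fun _ _ => by positivity)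
theorem sum_biU {X : Finset P} {t : P → Finset P} {f : P → ℝ} (hf : ∀ p, 0 ≤ f p) :
    ∑ p ∈ X.biUnion t, f p ≤ ∑ B ∈ X, ∑ p ∈ t B, f p := by
  induction X using Finset.induction_on with
  | empty => simp
  | insert a S ha ih =>
    rw [biUnion_insert, sum_insert ha]
    have := sum_union_inter (s₁ := t a) (s₂ := S.biUnion t) (f := f)
    have : 0 ≤ ∑ p ∈ t a ∩ S.biUnion t, f p := sum_nonneg fun _ _ => hf _
    linarith
theorem Reg_le (l : ℕ) (X : Finset P) (θ : P → ℝ) :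
    Reg l X θ ≤ ∑ B ∈ X, Nf l (cf θ) (nb l B) := by
  have h1 : under l X ⊆ nbs l X := biUnion_mono fun B _ => cell_nb l B
  have h2 := sum_sdiff (f := n1 (cf θ)) h1
  have h3 : 0 ≤ ∑ x ∈ nbs l X \ under l X, n1 (cf θ) x := sum_nonneg fun _ _ => n1_nn _ _
  have h4 : Nf l (cf θ) (nbs l X) ≤ ∑ B ∈ X, Nf l (cf θ) (nb l B) :=
    sum_biU fun p => by have := n1_nn (cf θ) p; have := n2_nn (cf θ) p; positivity
  refine le_trans ?_ h4
  rw [Nf, sum_add_distrib, ← mul_sum, Reg]; linarith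
theorem Nf_add (l : ℕ) (v w : Fld) (S : Finset P) :
    Nf l (v + w) S ≤ 2 * Nf l v S + 2 * Nf l w S := by
  simp only [Nf, mul_sum, ← sum_add_distrib]
  refine sum_le_sum fun p _ => ?_
  have := n1_add v w p
  have := mul_le_mul_of_nonneg_left (n2_add v w p) (sq_nonneg (l : ℝ))
  linarith

/-- noise weight of one block -/
def fz (q : Par) (b : ℕ × ℕ) (j : ℕ) (B : P) (ω : Om) : ℝ :=
  2 * q.κ * Nf (q.l j) (cf (zeta q.L (q.n b) j ω)) (nb (q.l j) B)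

theorem fz_Wz {q : Par} (hL : 100 ≤ q.L) (hκ : 0 < q.κ) (b : ℕ × ℕ) (j : ℕ) (S : Finset P)
    (ω : Om) : 7 * ∑ B ∈ S, fz q b j B ω ≤ q.Wz b j S ω := by
  have hL' : (100 : ℝ) ≤ q.L := by exact_mod_cast hL
  rw [Par.Wz, mul_sum, mul_sum]
  refine sum_le_sum fun B _ => ?_
  have h1 := Nf_N0 (q.l j) (cf (zeta q.L (q.n b) j ω)) (nb (q.l j) B)
  have h2 := Nf_nn (q.l j) (cf (zeta q.L (q.n b) j ω)) (nb (q.l j) B)
  unfold fz
  nlinarith [mul_le_mul hL' h1 h2 (by linarith)]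

/-- a bounded activity at `Θ + ζ` -/
theorem bd_dm {q : Par} (hκ : 0 < q.κ) {Z : Type} {b : ℕ × ℕ} {j : ℕ} {X : Finset P} {θ : P → ℝ}
    {z : Z → ℂ} {v : Z → Fld} {F : Z → Fld → ℂ} {a : ℝ} (hθ : Dir (q.n b) θ)
    (hζ : ∀ ω, Dir (q.n b) (zeta q.L (q.n b) j ω)) (hF : ∀ τ, q.BdJ b j (z τ) X (F τ) a)
    (hv : ∀ τ, Strip (q.n b) (q.l j) q.h (q.L * q.h) X (v τ)) :
    Dm (fun ω => ∑ B ∈ X, fz q b j B ω) fun τ ω =>
      F τ (bg (q.n b) (z τ) + cf θ + v τ + cf (zeta q.L (q.n b) j ω)) := by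
  refine ⟨|a * q.A⁻¹ ^ X.card| * Real.exp (2 * q.κ * ∑ B ∈ X, Nf (q.l j) (cf θ) (nb (q.l j) B)),
    by positivity, fun τ ω => ?_⟩
  have h := hF τ _ (dir_add hθ (hζ ω)) _ (hv τ)
  beta_reduce
  rw [show bg (q.n b) (z τ) + cf θ + v τ + cf (zeta q.L (q.n b) j ω) =
    bg (q.n b) (z τ) + cf (θ + zeta q.L (q.n b) j ω) + v τ by rw [cf_add]; abel, mul_assoc,
    ← Real.exp_add]
  refine h.trans (mul_le_mul (le_abs_self _) (Real.exp_le_exp.2 ?_) (Real.exp_pos _).le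
    (abs_nonneg _))
  refine (mul_le_mul_of_nonneg_left (Reg_le _ _ _) hκ.le).trans ?_
  simp only [mul_sum, ← sum_add_distrib, cf_add, fz]
  refine sum_le_sum fun B _ => ?_
  have := mul_le_mul_of_nonneg_left
    (Nf_add (q.l j) (cf θ) (cf (zeta q.L (q.n b) j ω)) (nb (q.l j) B)) hκ.le
  linarith

theorem norm_Qz (q : Par) (b : ℕ × ℕ) (j : ℕ) {z : ℂ} (hz : ‖z‖ ≤ 1) (B : P) (θ : P → ℝ)
    {v : Fld} (hv : Nf (q.l j) v (nb (q.l j) B) ≤ q.h ^ 2) (ξ : Fld) :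
    ‖q.Qz b j z B (bg (q.n b) z + cf θ + v + ξ)‖ ≤ (∑ x ∈ cell (q.l j) B,
      (9 * n1 (cf (uu (q.n b))) x + 8 * n1 (cf θ) x) + 4 * q.h ^ 2) +
      2 * Nf (q.l j) ξ (nb (q.l j) B) := by
  have h1 := norm_En (bg (q.n b) z + cf θ + v + ξ) (cell (q.l j) B)
  have h2 : ‖if ab (q.m b j) B then En (bg (q.n b) z) (cell (q.l j) B) else 0‖ ≤
      ∑ x ∈ cell (q.l j) B, n1 (cf (uu (q.n b))) x := by
    split_ifs
    · exact (norm_En _ _).trans (sum_le_sum fun x _ => n1_bg _ hz x)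
    · simpa using sum_nonneg fun x _ => n1_nn _ x
  have h3 : ∑ x ∈ cell (q.l j) B, n1 (bg (q.n b) z + cf θ + v + ξ) x ≤ ∑ x ∈ cell (q.l j) B,
      (8 * n1 (cf (uu (q.n b))) x + 8 * n1 (cf θ) x + 4 * n1 v x + 2 * n1 ξ x) :=
    sum_le_sum fun x _ => by
      linarith [n1_add (bg (q.n b) z + cf θ + v) ξ x, n1_add (bg (q.n b) z + cf θ) v x,
        n1_add (bg (q.n b) z) (cf θ) x, n1_bg (q.n b) hz x]
  simp only [sum_add_distrib, ← mul_sum] at h3 ⊢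
  refine (norm_sub_le _ _).trans ?_
  linarith [n1_Nf (q.l j) v B, n1_Nf (q.l j) ξ B]

theorem Nf_zero (l : ℕ) (S : Finset P) : Nf l 0 S = 0 := by simp [Nf, n1, n2, dg]

theorem norm_exp_le {a : ℂ} {r : ℝ} (h : ‖a‖ ≤ r) : ‖Complex.exp a‖ ≤ Real.exp r :=
  (Complex.norm_exp_le_exp_norm a).trans (Real.exp_le_exp.2 h)

theorem norm_lamQ {lam M g : ℝ} {Q : ℂ} (h : |lam| ≤ M) (hQ : ‖Q‖ ≤ g) :
    ‖-(lam / 2 : ℂ) * Q‖ ≤ M / 2 * g := by
  rw [norm_mul, norm_neg, norm_div, Complex.norm_real, Real.norm_eq_abs, Complex.norm_two]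
  have := abs_nonneg lam
  exact mul_le_mul (by linarith) hQ (norm_nonneg _) (by linarith)

theorem fp_base : ∀ᶠ q in FP, 100 ≤ q.L ∧ Odd q.L ∧ 0 < q.κ ∧ 0 < q.h ∧ 0 < q.ε ∧ q.ε ≤ q.κ := by
  filter_upwards [fp_L 100, fp_κ (fun _ _ => 1) fun _ _ => one_pos, fp_h fun _ _ _ => 1,
    fp_ε (fun _ _ κ _ _ => if 0 < κ then κ else 1) fun _ _ κ _ _ => by split_ifs <;> positivity]
    with q h1 h2 h3 h4
  exact ⟨h1.2, h1.1, h2.1, by linarith, h4.1, by simpa [h2.1] using h4.2⟩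

theorem near8 {L k : ℕ} (hk : k ≤ 8) {R U X : Finset P} (h : X ⊆ near k R (under L U)) :
    ∀ a ∈ X, ∃ a' ∈ under L U, nr 8 a' a := fun _ ha =>
  let ⟨_, a', h1, h2⟩ := mem_near.1 (h ha); ⟨a', h1, nr_trans h2 (nr_refl 0 _) (by omega)⟩
theorem under_near {L k : ℕ} (hL : 0 < L) {D U : Finset P} (hU : U ⊆ D) :
    under L U ⊆ near k (reg L D U) (under L U) := fun a ha =>
  mem_near.2 ⟨(mem_under hL).2 (mem_near.2 ⟨hU ((mem_under hL).1 ha), _, (mem_under hL).1 ha,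
    nr_refl _ _⟩), a, ha, nr_refl _ _⟩

theorem _root_.Pool.Agent.Lib.MP_9cc147_pr.Cx.t_T_maj (h_one : S_one) (h_zel : S_zel)
    (h_zmom : S_zmom) : S_T_maj := by
  filter_upwards [fp_base, h_zmom] with q ⟨hL, _, hκ, _, hε, hεκ⟩ hmom
  intro t0 j α ν ρ b θ U M hb hU hθ
  have hR := reg_box q hL hb U
  have hb' := ok_pred hb
  refine ⟨hR, ((hmom b j hb').1 _ hR).1, ?_⟩
  have hζ := fun ω => ((h_zel.2 q.L (q.n b) j hL (n_pos q hL hb)).1 ω).1
  let Z := {y : State × ℂ × Fld // q.Good t0 j y.1 α ν ρ ∧ ‖y.2.1‖ ≤ t0 ∧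
    Strip (q.n b) (q.l (j + 1)) q.h (q.L * q.h) U y.2.2 ∧
    (∀ s, ∀ B ∈ box (q.m b j), ‖q.e j y.1 b y.2.1 s B‖ ≤ M) ∧ ∀ s, |q.lam' j y.1 s| ≤ M}
  set R := reg q.L (box (q.m b (j + 1))) U with hRd
  set V := near 4 R (under q.L U) with hV
  have hVb : V ⊆ box (q.m b j) := near_sub.trans hR
  have hUV : under q.L U ⊆ V := under_near (by omega) hU.1
  have hst : ∀ X ⊆ V, ∀ τ : Z, Strip (q.n b) (q.l j) q.h (q.L * q.h) X τ.1.2.2 := fun X hX τ =>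
    (t_T_strip q.L (q.n b) (q.l j) _ _ U X _ hL (l_pos q hL j) (near8 (by norm_num) hX)).2
      (l_succ q j ▸ τ.2.2.2.1)
  have hz : ∀ τ : Z, ‖τ.1.2.1‖ ≤ 1 := fun τ => τ.2.2.1.trans τ.2.1.t.2
  let Θ : Z → Fld := fun τ => bg (q.n b) τ.1.2.1 + cf θ + τ.1.2.2
  let g : P → ℝ := fun B => ∑ x ∈ cell (q.l j) B,
    (9 * n1 (cf (uu (q.n b))) x + 8 * n1 (cf θ) x) + 4 * q.h ^ 2
  have hQ : ∀ B ∈ V, ∀ (τ : Z) ξ, ‖q.Qz b j τ.1.2.1 B (Θ τ + ξ)‖ ≤
      g B + 2 * Nf (q.l j) ξ (nb (q.l j) B) := fun B hB τ ξ =>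
    norm_Qz q b j (hz τ) B θ ((hst V le_rfl τ).1 B hB) ξ
  have hE : ∀ s, ∀ B ∈ V, ∀ τ : Z, ‖-q.e j τ.1.1 b τ.1.2.1 s B +
      -(q.lam' j τ.1.1 s / 2 : ℂ) * q.Qz b j τ.1.2.1 B (Θ τ)‖ ≤ M + M / 2 * g B := fun s B hB τ => by
    refine (norm_add_le _ _).trans (add_le_add ?_ (norm_lamQ (τ.2.2.2.2.2 s) ?_))
    · rw [norm_neg]; exact τ.2.2.2.2.1 s B (hVb hB)
    · simpa [Nf_zero] using hQ B hB τ 0
  have hI : ∀ s, ∀ B ∈ V, Dm (fun _ => 0) fun (τ : Z) _ => q.It j τ.1.1 b τ.1.2.1 (Θ τ) s B :=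
    fun s B hB => Dm.bdd fun τ _ => by
      rw [Par.It, Par.Ih, ← Complex.exp_add]; exact norm_exp_le (hE s B hB τ)
  have hI' : ∀ s, ∀ B ∈ V, Dm (fun _ => 0) fun (τ : Z) _ => (q.It j τ.1.1 b τ.1.2.1 (Θ τ) s B)⁻¹ :=
    fun s B hB => Dm.bdd fun τ _ => by
      rw [Par.It, Par.Ih, ← Complex.exp_add, ← Complex.exp_neg]
      exact norm_exp_le (by rw [norm_neg]; exact hE s B hB τ)
  have hf : ∀ B ω, 0 ≤ fz q b j B ω := fun B ω => mul_nonneg (by positivity) (Nf_nn _ _ _)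
  have hM : ∀ s, ∀ B ∈ under q.L U, Dm (fz q b j B) fun (τ : Z) ω =>
      (q.inp j τ.1.1 b τ.1.2.1 (Θ τ)).M ω s B := fun s B hB => by
    have h1 : Dm (fz q b j B) fun (τ : Z) ω => q.Ih b j τ.1.2.1 (τ.1.1.lam s) B
        (Θ τ + cf (zeta q.L (q.n b) j ω)) := by
      refine ⟨Real.exp (q.κ / 2 * g B), (Real.exp_pos _).le, fun τ ω => ?_⟩
      rw [← Real.exp_add]
      refine norm_exp_le ((norm_lamQ ((τ.2.1.bnd.lam s).trans (τ.2.1.a.2.trans hεκ))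
        (hQ B (hUV hB) τ _)).trans ?_)
      have := mul_nonneg hκ.le (Nf_nn (q.l j) (cf (zeta q.L (q.n b) j ω)) (nb (q.l j) B))
      unfold fz; linarith
    have := ((h1.mul (hI' s B (hUV hB))).mono (w' := fz q b j B) (by simp)).sub_one (hf B)
    simpa only [Par.inp, div_eq_mul_inv] using this
  have hK : ∀ s X, Conn X → X ⊆ V → Dm (fun ω => ∑ B ∈ X, fz q b j B ω) fun (τ : Z) ω =>
      (q.inp j τ.1.1 b τ.1.2.1 (Θ τ)).K ω s X := fun s X hX hXV => by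
    have h1 := bd_dm hκ hθ hζ (z := fun τ : Z => τ.1.2.1)
      (fun τ => τ.2.1.bnd.K b _ s X hb' τ.2.2.1 ⟨hXV.trans hVb, hX⟩) (hst X hXV)
    have := (h1.mul (Dm.prod fun B hB => hI' s B (hXV hB))).mono
      (w' := fun ω => ∑ B ∈ X, fz q b j B ω) (by simp)
    simpa only [Par.inp, div_eq_mul_inv, prod_inv_distrib] using this
  have hN : ∀ X σ, Conn X → X ⊆ under q.L U → Dm (fun ω => ∑ B ∈ X, fz q b j B ω)
      fun (τ : Z) ω => (q.inp j τ.1.1 b τ.1.2.1 (Θ τ)).N ω X σ := fun X σ hX hXU =>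
    bd_dm hκ hθ hζ (z := fun τ : Z => τ.1.2.1)
      (fun τ => τ.2.1.bnd.N b _ X σ hb' τ.2.2.1 ⟨hXU.trans (hUV.trans hVb), hX⟩)
      (hst X (hXU.trans hUV))
  have hd : ∀ s, ∀ B ∈ under q.L U, Dm (fun _ => 0) fun (τ : Z) _ =>
      Complex.exp (-(τ.1.1.a b τ.1.2.1).d s B) := fun s B hB =>
    Dm.bdd (c := |ρ| + Real.exp q.ε) fun τ _ => by
      have h := τ.2.1.bnd.d b _ s B hb' τ.2.2.1 (hVb (hUV hB))
      have := Real.exp_pos q.ε
      have := le_abs_self ρ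
      have := abs_nonneg ρ
      split_ifs at h
      · rw [Complex.norm_exp, Complex.neg_re]
        linarith [Real.exp_le_exp.2 (neg_le_abs ((τ.1.1.a b τ.1.2.1).d s B).re)]
      · linarith [norm_exp_le (a := -(τ.1.1.a b τ.1.2.1).d s B) (norm_neg (_ : ℂ) ▸ h)]
  obtain ⟨c0, p0, h0⟩ := lw_dm h_one (s0 := 4) (by omega) hU.1 hU.2.1 hf
    (fun s B hB => hI s B (hUV hB)) hM hK (N := fun _ _ _ _ => 0)
    fun X σ _ _ => ⟨0, le_rfl, by simp⟩
  obtain ⟨c1, p1, h1⟩ := lw_dm h_one (s0 := 4) (by omega) hU.1 hU.2.1 hf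
    (T := fun τ s B => Complex.exp (-(τ.1.1.a b τ.1.2.1).d s B) * q.It j τ.1.1 b τ.1.2.1 (Θ τ) s B)
    (fun s B hB => ((hd s B hB).mul (hI s B (hUV hB))).mono (by simp)) hM hK hN
  refine ⟨c0 + c1, fun x z v k1 k2 k3 k4 k5 ω => ?_⟩
  have he := Real.exp_le_exp.2 (fz_Wz hL hκ b j R ω)
  exact ⟨fun s => (h0 ⟨(x, z, v), k1, k2, k3, k4, k5⟩ ω _ (filter_subset _ _)).trans
      (mul_le_mul (by linarith) he (Real.exp_pos _).le (by linarith)),
    fun σ => (h1 ⟨(x, z, v), k1, k2, k3, k4, k5⟩ ω _ (filter_subset _ _)).trans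
      (mul_le_mul (by linarith) he (Real.exp_pos _).le (by linarith))⟩

/-- measurable functions as a subalgebra -/
def measA (Y : Type) [MeasurableSpace Y] : Subalgebra ℂ (Y → ℂ) where
  carrier := {f | Measurable f}
  mul_mem' ha hb := Measurable.mul ha hb
  add_mem' ha hb := Measurable.add ha hb
  algebraMap_mem' _ := measurable_const

theorem meas_En {Y : Type} [MeasurableSpace Y] {f : Y → Fld} (hf : Measurable f) (S : Finset P) :
    Measurable fun y => En (f y) S := by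
  have := fun p => (measurable_pi_apply p).comp hf
  unfold En dg
  refine Finset.measurable_sum _ fun x _ => Measurable.const_mul
    (Finset.measurable_sum _ fun d _ => Measurable.pow_const (Measurable.sub ?_ ?_) 2) _ <;>
    exact this _
theorem meas_cf {Y : Type} [MeasurableSpace Y] {f : Y → P → ℝ} (hf : Measurable f) :
    Measurable fun y => cf (f y) :=
  measurable_pi_lambda _ fun p => Complex.measurable_ofReal.comp ((measurable_pi_apply p).comp hf)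
theorem meas_Ih (q : Par) (b : ℕ × ℕ) (j : ℕ) (z : ℂ) (lam : ℝ) (B : P) {Y : Type}
    [MeasurableSpace Y] {f : Y → Fld} (hf : Measurable f) :
    Measurable fun y => q.Ih b j z lam B (f y) :=
  Complex.measurable_exp.comp (((meas_En hf _).sub_const _).const_mul _)

theorem _root_.Pool.Agent.Lib.MP_9cc147_pr.Cx.t_T_meas (h_one : S_one) (h_zel : S_zel) :
    S_T_meas := by
  intro q t0 j x b z U hL hx hb hU
  have hR := reg_box q hL hb U
  have hb' := ok_pred hb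
  have hζ := (h_zel.2 q.L (q.n b) j hL (n_pos q hL hb)).2.1.1
  have hΘ : Measurable fun y : Fld × Om => y.1 + cf (zeta q.L (q.n b) j y.2) :=
    measurable_fst.add (meas_cf (hζ.comp measurable_snd))
  have hI : ∀ s B, Measurable fun y : Fld × Om => q.It j x b z y.1 s B := fun s B =>
    (meas_Ih q b j z _ B measurable_fst).const_mul _
  have hM : ∀ s B, Measurable fun y : Fld × Om => (q.inp j x b z y.1).M y.2 s B := fun s B =>
    ((meas_Ih q b j z _ B hΘ).div (hI s B)).sub_const _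
  have hK : ∀ s X, Conn X → X ⊆ near 4 (reg q.L (box (q.m b (j + 1))) U) (under q.L U) →
      Measurable fun y : Fld × Om => (q.inp j x b z y.1).K y.2 s X := fun s X hX hXV =>
    ((hx.locK b z s X hb' ⟨hXV.trans (near_sub.trans hR), hX⟩).1.comp hΘ).div
      (Finset.measurable_prod _ fun B _ => hI s B)
  have hN : ∀ X σ, Conn X → X ⊆ under q.L U →
      Measurable fun y : Fld × Om => (q.inp j x b z y.1).N y.2 X σ := fun X σ hX hXV =>
    (hx.locN b z X σ hb' ⟨(hXV.trans (under_near (k := 0) (by omega) hU.1)).trans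
      (near_sub.trans hR), hX⟩).1.comp hΘ
  exact ⟨(t_T_mem h_one _ (measA (Fld × Om)) q.L 4 _ U (fun y => (q.inp j x b z y.1).It) _ _
      (fun _ _ _ => 0) (by omega) hU.1 hU.2.1 (fun s B _ => ⟨hI s B, hM s B⟩) hK).1,
    (t_T_mem h_one _ (measA (Fld × Om)) q.L 4 _ U (fun y s B =>
      Complex.exp (-(q.inp j x b z y.1).d s B) * (q.inp j x b z y.1).It s B) _ _ _ (by omega)
      hU.1 hU.2.1 (fun s B _ => ⟨(hI s B).const_mul (Complex.exp (-(x.a b z).d s B)), hM s B⟩) hK).2 hN⟩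

end Pool.Agent.Lib.MP_9cc147_pr.Cx.T
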