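import Pool.Agent.Lib.MP_9cc147_pr.Cx.T.Tra
import Pool.Agent.Lib.MP_9cc147_pr.Cx.T.Hol

/-! Symmetries of the extracted constants. -/

open scoped Classical Topology ComplexConjugate
open Finset MeasureTheory ProbabilityTheory Filter

noncomputable section
namespace Pool.Agent.Lib.MP_9cc147_pr.Cx.T

theorem mem_smalls {R X : Finset P} {B : P} :
    X ∈ smalls R B ↔ X ⊆ R ∧ Conn X ∧ B ∈ X ∧ X.card ≤ 4 := by simp [smalls]

theorem conn_img (β : P ≃ P) (hβ : ∀ a b, nr 1 (β a) (β b) ↔ nr 1 a b) {X : Finset P}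
    (hX : Conn X) : Conn (X.image β) := by
  refine ⟨hX.1.image _, fun a ha b hb => ?_⟩
  obtain ⟨a, ha', rfl⟩ := mem_image.1 ha
  obtain ⟨b, hb', rfl⟩ := mem_image.1 hb
  exact (hX.2 a ha' b hb').lift β fun _ _ h =>
    ⟨mem_image_of_mem _ h.1, mem_image_of_mem _ h.2.1, (hβ _ _).2 h.2.2⟩

theorem small_near {m : ℕ} {B : P} {X : Finset P} (h : X ∈ smalls (box m) B) :
    X ⊆ near 4 (box m) {B} := fun a ha =>
  let ⟨h1, h2, h3, h4⟩ := mem_smalls.1 h
  mem_near.2 ⟨h1 ha, B, mem_singleton_self B,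
    nr_trans (conn_nr h2 h4 h3 ha) (nr_refl 0 _) (by norm_num)⟩

theorem sm_iso {m m' : ℕ} {g : Sy} {c B : P} (hB : B ∈ box m)
    (h : Mv m m' g c (near 4 (box m) {B})) :
    smalls (box m') (fm g c B) = (smalls (box m) B).image (image (fm g c)) := by
  ext Y
  constructor
  · intro hY
    obtain ⟨h1, h2, h3, h4⟩ := mem_smalls.1 hY
    have e : (Y.image (fE g c).symm).image (fm g c) = Y := by
      rw [image_image, ← fE_coe]; simp
    have c1 : Conn (Y.image (fE g c).symm) := conn_img _ (fun a b => by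
      rw [← nr_fm 1 g c, ← fE_coe]; simp) h2
    have c2 : B ∈ Y.image (fE g c).symm := mem_image.2 ⟨_, h3, (fE g c).symm_apply_apply B⟩
    have c3 : (Y.image (fE g c).symm).card ≤ 4 := card_image_le.trans h4
    refine mem_image.2 ⟨_, mem_smalls.2 ⟨fun a ha => ?_, c1, c2, c3⟩, e⟩
    generalize Y.image (fE g c).symm = X at *
    have := c1.2 B c2 a ha
    clear ha
    induction this with
    | refl => exact hB
    | tail _ k ih =>
      exact (h.1 _ ⟨_, mem_near.2 ⟨ih, B, mem_singleton_self B,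
        nr_trans (conn_nr c1 c3 c2 k.1) (nr_refl 0 _) (by norm_num)⟩, k.2.2⟩).2
        (h1 (e ▸ mem_image_of_mem _ k.2.1))
  · intro hY
    obtain ⟨X, hX, rfl⟩ := mem_image.1 hY
    obtain ⟨h1, h2, h3, h4⟩ := mem_smalls.1 hX
    refine mem_smalls.2 ⟨fun a ha => ?_, conn_img (fE g c) (nr_fm 1 g c) h2,
      mem_image_of_mem _ h3, card_image_le.trans h4⟩
    obtain ⟨a, ha', rfl⟩ := mem_image.1 ha
    exact (h.1 a ⟨a, small_near hX ha', nr_refl _ _⟩).1 (h1 ha')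

theorem Ez_tra {q : Par} {j : ℕ} {b b' : ℕ × ℕ} (hζ : Measurable (zeta q.L (q.n b) j))
    {φ : ℂ →+* ℂ} (hφ : JsHom φ) {Ψ : Om → Om} (hΨ : MeasurePreserving Ψ PP PP)
    {F F' : Fld → ℂ} {Θ Θ' : Fld} (l : Measurable F)
    (h : ∀ ω, F' (Θ' + cf (zeta q.L (q.n b') j ω)) = φ (F (Θ + cf (zeta q.L (q.n b) j (Ψ ω))))) :
    q.Ez b' j F' Θ' = φ (q.Ez b j F Θ) :=
  int_tra hφ hΨ (F := fun ω => F (Θ + cf (zeta q.L (q.n b) j ω)))
    (l.comp ((meas_cf hζ).const_add Θ)) h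

theorem neg_pp (h_zel : S_zel) : MeasurePreserving (fun ω : Om => -ω) PP PP := by
  rw [h_zel.1]
  exact ((h_zel.2 100 1 0 le_rfl le_rfl).2.2.2.2 _ (by simp [gaussianReal_map_neg])).1

theorem conj_cf (θ : P → ℝ) : (fun p => conj ((0 + cf θ) p)) = 0 + cf θ := by
  ext p; simp [cf]
theorem ctr_zero (q : Par) (b : ℕ × ℕ) (j : ℕ) (X : Finset P) : q.ctr b j 0 X = 0 := by
  simp [Par.ctr, jg_bg_zero]
theorem ctr_neg (q : Par) (b : ℕ × ℕ) (j : ℕ) (z : ℂ) (X : Finset P) :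
    q.ctr b j (-z) X = -q.ctr b j z X := by
  unfold Par.ctr; split_ifs <;> simp [jg_bg_neg]
theorem xt_zero (q : Par) (b : ℕ × ℕ) (j : ℕ) (lam : ℝ) (B : P) : q.xt b j 0 lam B = 0 := by
  simp [Par.xt, jg_bg_zero, jg_En_zero]
theorem xt_neg (q : Par) (b : ℕ × ℕ) (j : ℕ) (z : ℂ) (lam : ℝ) (B : P) :
    q.xt b j (-z) lam B = q.xt b j z lam B := by
  simp only [Par.xt, jg_bg_neg, jg_En_neg]
theorem et_zero (q : Par) (j : ℕ) (x : State) (b : ℕ × ℕ) (s : Lab) (B : P) :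
    q.et j x b 0 s B = q.e j x b 0 s B := by rw [Par.et, xt_zero, add_zero]
theorem strip_zero (n l : ℕ) {h h' : ℝ} (k : 0 ≤ h') (X : Finset P) : Strip n l h h' X 0 :=
  ⟨fun _ _ => by rw [Nf_zero]; positivity, fun _ _ _ => rfl, 0, fun _ => rfl,
    fun _ _ => by simpa using k⟩
theorem xt_hol (q : Par) (t0 : ℝ) (b : ℕ × ℕ) (j : ℕ) (lam : ℝ) (B : P) :
    Hz t0 fun z => q.xt b j z lam B := fun O zf _ hz _ => by
  unfold Par.xt
  split_ifs
  · exact (gp_En_diff (fun p => hz.mul_const _) _).const_mul _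
  · exact differentiableOn_const _

section
variable (h_zel : S_zel) {q : Par} {t0 : ℝ} {j : ℕ} {x : State} (hL : 100 ≤ q.L)
  (hx : q.Str t0 j x) {b : ℕ × ℕ} (hb : Par.ok b j)
include h_zel hL hx hb

theorem e_cj (s : Lab) (B : P) : q.e j x b 0 s B = conj (q.e j x b 0 s B) := by
  have hζ := (h_zel.2 q.L (q.n b) j hL (n_pos q hL hb)).2.1.1
  simp only [Par.e, Par.ee, Par.eK, map_sub, map_mul, map_sum, map_div₀, ctr_zero,
    Complex.conj_ofReal, map_ofNat, map_natCast]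
  refine congrArg₂ (fun u v => _ * u - v) ?_ (sum_congr rfl fun X hX => congrArg (· / _) ?_)
  · exact Ez_tra hζ js_conj (.id _) (meas_En measurable_id _) fun ω => by
      rw [← jg_En_conj, id, conj_cf]
  · obtain ⟨h1, h2, -⟩ := mem_smalls.1 hX
    exact Ez_tra hζ js_conj (.id _) (hx.locK b 0 s X hb ⟨h1, h2⟩).1 fun ω => by
      rw [← hx.cjK b s X _ hb ⟨h1, h2⟩, id, conj_cf]

theorem e_neg (z : ℂ) (s : Lab) (B : P) : q.e j x b (-z) s B = q.e j x b z s B := by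
  obtain ⟨-, ⟨hζ, -⟩, hn, -⟩ := h_zel.2 q.L (q.n b) j hL (n_pos q hL hb)
  simp only [Par.e, Par.ee, Par.eK]
  refine congrArg (_ - ·) (sum_congr rfl fun X hX => congrArg (· / _) ?_)
  obtain ⟨h1, h2, -⟩ := mem_smalls.1 hX
  refine Ez_tra hζ js_id (neg_pp h_zel) (hx.locK b z s X hb ⟨h1, h2⟩).1 fun ω => ?_
  rw [RingHom.id_apply, ← hx.negK b z s X _ hb ⟨h1, h2⟩, (hn ω).1, cf_neg, ctr_neg, neg_add,
    neg_neg]

omit h_zel in
theorem e_far (z : ℂ) (s : Lab) {B : P} (h : ∀ B', ab (q.m b j) B' → ¬ nr 5 B B') :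
    q.e j x b z s B = q.e j x b 0 s B := by
  simp only [Par.e, Par.ee, Par.eK]
  refine congrArg (_ - ·) (sum_congr rfl fun X hX => ?_)
  obtain ⟨h1, h2, h3, h4⟩ := mem_smalls.1 hX
  have k : ¬ spec (q.m b j) X := fun k =>
    let ⟨B', a, a'⟩ := spec_small (m_ge q hL hb) ⟨h1, h2⟩ h4 h3 k; h B' a a'
  rw [hx.farK b z s X hb ⟨h1, h2⟩ k, Par.ctr, Par.ctr, if_neg k, if_neg k]

theorem sum_iso (h_ziso : S_ziso) {b' : ℕ × ℕ} (hb' : Par.ok b' j) {g : Sy} {c B : P}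
    (hB : B ∈ box (q.m b j)) (h : Mv (q.m b j) (q.m b' j) g c (near 4 (box (q.m b j)) {B}))
    (s : Lab) (Θ : Fld) :
    ∑ Y ∈ smalls (box (q.m b' j)) (fm g c B), q.Ez b' j ((x.a b' 0).K (pm g c s) Y) Θ / Y.card =
      ∑ X ∈ smalls (box (q.m b j)) B,
        q.Ez b j ((x.a b 0).K s X) (Θ ∘ vm g (smul (q.l j) c)) / X.card := by
  have hζ := (h_zel.2 q.L (q.n b) j hL (n_pos q hL hb)).2.1.1
  obtain ⟨hΨ, hz⟩ := h_ziso q j g c hL
  rw [sm_iso hB h, sum_image (image_injective (fm_inj g c)).injOn]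
  refine sum_congr rfl fun X hX => ?_
  obtain ⟨h1, h2, -⟩ := mem_smalls.1 hX
  have k := Mv_mono h (small_near hX)
  rw [card_image_of_injective _ (fm_inj g c)]
  refine congrArg (· / _) (Ez_tra hζ js_id hΨ (hx.locK b 0 s X hb ⟨h1, h2⟩).1 fun ω => ?_)
  rw [hx.isoK b b' g c s X _ hb hb' ⟨h1, h2⟩ k]
  exact (hx.locK b 0 s X hb ⟨h1, h2⟩).2 _ _ fun p hp => by
    simp only [Function.comp, Pi.add_apply, cf, (hz b b' X hb hb' h1 k ω p hp).2]

omit h_zel hL hx in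
theorem crn_nbs {B y : P} {V : Finset P} (hB : B ∈ box (q.m b j)) (hV : B ∈ V)
    (hy : y ∈ cell (q.l j) B) (d : Fin 4) : y + crn d ∈ nbs (q.l j) V ∩ sqr (q.n b) :=
  mem_inter.2 ⟨mem_biUnion.2 ⟨B, hV, (crn_mem hB hy d).1⟩, n_eq q hb ▸ (crn_mem hB hy d).2⟩

theorem e_iso (h_ziso : S_ziso) {b' : ℕ × ℕ} (hb' : Par.ok b' j) {g : Sy} {c B : P}
    (hB : B ∈ box (q.m b j)) (h : Mv (q.m b j) (q.m b' j) g c (near 4 (box (q.m b j)) {B}))
    (s : Lab) : q.e j x b' 0 (pm g c s) (fm g c B) = q.e j x b 0 s B := by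
  have hζ := (h_zel.2 q.L (q.n b) j hL (n_pos q hL hb)).2.1.1
  obtain ⟨hΨ, hz⟩ := h_ziso q j g c hL
  simp only [Par.e, Par.ee, Par.eK, ctr_zero, lam_pm hx.lam12]
  refine congrArg₂ (fun u v => _ * u - v) ?_ (sum_iso h_zel hL hx hb h_ziso hb' hB h s 0)
  refine Ez_tra hζ js_id hΨ (meas_En measurable_id _) fun ω => ?_
  rw [En_fm (l_pos q hL j)]
  exact En_congr fun y hy d => by
    simp only [Function.comp, id, Pi.add_apply, Pi.zero_apply, cf, (hz b b' _ hb hb' near_sub h ω _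
      (crn_nbs hb hB (mem_near.2 ⟨hB, B, mem_singleton_self B, nr_refl _ _⟩) hy d)).2]

end

theorem e_hol (h_zel : S_zel) {q : Par} {t0 α ν ρ : ℝ} {j : ℕ} {x : State} (hL : 100 ≤ q.L)
    (hκ : 0 < q.κ) (hh : 0 < q.h) (hx : q.Good t0 j x α ν ρ) {b : ℕ × ℕ} (hb : Par.ok b j)
    (hm : ∀ S ⊆ box (q.m b j), Integrable (fun ω => Real.exp (q.Wz b j S ω)) PP) (s : Lab) (B : P) :
    Hz t0 fun z => q.e j x b z s B := fun O zf hO hz ht => by
  obtain ⟨hd, ⟨hζ, -⟩, -⟩ := h_zel.2 q.L (q.n b) j hL (n_pos q hL hb)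
  simp only [Par.e, Par.ee, Par.eK]
  refine (DifferentiableOn.fun_sum fun X hX => DifferentiableOn.div_const ?_ _).const_sub _
  obtain ⟨h1, h2, -⟩ := mem_smalls.1 hX
  have hP : Pm (q.m b j) X := ⟨h1, h2⟩
  by_cases k : spec (q.m b j) X
  · have s0 := strip_zero (q.n b) (q.l j) (h := q.h) (h' := q.L * q.h) (by positivity) X
    have d0 : Dir (q.n b) 0 := fun p => by simp
    have c0 : cf 0 = 0 := by ext p; simp [cf]
    obtain ⟨c, c1, hc⟩ := bd_dm hκ d0 (fun ω => (hd ω).1) (Z := {z : ℂ // ‖z‖ ≤ t0})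
      (z := fun τ => τ.1) (v := fun _ => 0) (fun τ => hx.bnd.K b τ.1 s X hb τ.2 hP) fun _ => s0
    simp only [Par.Ez, Par.ctr, if_pos k]
    refine t_T_hol PP O _ hO (fun τ _ => (hx.str.locK b _ s X hb hP).1.comp
      ((meas_cf hζ).const_add _)) (fun ω => ?_) fun τ hτ =>
      ⟨fun ω => c * Real.exp (q.Wz b j X ω), (hm X h1).const_mul c,
        (hO.eventually_mem hτ).mono fun σ hσ ω => ?_⟩
    · simpa using hx.str.holK b s X hb hP _ (hd ω).1 O zf (fun _ => 0) hO hz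
        (fun _ => differentiableOn_const _) fun σ hσ => ⟨ht σ hσ, s0⟩
    · have a := hc ⟨zf σ, ht σ hσ⟩ ω
      have a1 := fz_Wz hL hκ b j X ω
      have a2 : 0 ≤ ∑ B ∈ X, fz q b j B ω :=
        sum_nonneg fun B _ => mul_nonneg (by positivity) (Nf_nn _ _ _)
      simp only [c0, add_zero] at a
      exact a.trans (mul_le_mul_of_nonneg_left (Real.exp_le_exp.2 (by linarith)) c1)
  · simp only [Par.ctr, if_neg k, fun z => hx.str.farK b z s X hb hP k]
    exact differentiableOn_const _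

theorem sds_deep {m : ℕ} {V : Finset P} (h : ∀ a ∈ V, deep 2 m a) :
    (sds m (near 1 (box m) V)).card ≤ 1 := by
  rw [eq_empty_of_forall_notMem (s := sds m _) fun i hi => ?_]
  · simp
  obtain ⟨B, hB, e⟩ := mem_sds.1 hi
  obtain ⟨-, a, ha, k⟩ := mem_near.1 hB
  have := h a ha
  rw [nr_iff] at k
  unfold deep at this
  fin_cases i <;> simp at e <;> omega

theorem Mv_mid {m : ℕ} {U : Finset P} (h : ∀ a ∈ U, deep 3 m a) :
    Mv m m ⟨false, false, false⟩ (1, 0) U := by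
  refine ⟨fun B ⟨a, ha, k⟩ => ?_, sds_deep fun a ha => ?_, sds_deep fun a ha => ?_⟩
  · have := h a ha
    rw [nr_iff] at k
    unfold deep at this
    simp [mem_box, fm, vm]; omega
  · have := h a ha
    unfold deep at *; omega
  · obtain ⟨a, ha', rfl⟩ := mem_image.1 ha
    have := h a ha'
    unfold deep at *
    simp [fm, vm]; omega

theorem lam'_12 (h_zel : S_zel) (h_ziso : S_ziso) {q : Par} {t0 : ℝ} {j : ℕ} {x : State}
    (hL : 100 ≤ q.L) (hx : q.Str t0 j x) : q.lam' j x 1 = q.lam' j x 2 := by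
  have hb : Par.ok (1, j + 1) j := ⟨Or.inl rfl, by simp, by simp⟩
  have hm : q.m (1, j + 1) j = q.L ^ 2 := by
    simp only [Par.m, one_mul]; congr 1; omega
  have hl : 100 ≤ q.L ^ 2 := hm ▸ m_ge q hL hb
  have hB : q.Bc ∈ box (q.m (1, j + 1) j) := by
    rw [hm, mem_box, Par.Bc]; generalize q.L ^ 2 = k at *; simp only; omega
  have hv : Mv (q.m (1, j + 1) j) (q.m (1, j + 1) j) ⟨false, false, false⟩ (1, 0)
      (near 4 (box (q.m (1, j + 1) j)) {q.Bc}) := Mv_mid fun a ha => by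
    obtain ⟨-, a', h1, h2⟩ := mem_near.1 ha
    rw [mem_singleton.1 h1, nr_iff, Par.Bc] at h2
    rw [hm, deep]; generalize q.L ^ 2 = k at *; simp only at h2; omega
  have f : ∀ s y, q.fB (1, j + 1) j ((x.a (1, j + 1) 0).K (Equiv.swap 1 2 s)) (q.Bc + (1, 0)) y =
      q.fB (1, j + 1) j ((x.a (1, j + 1) 0).K s) q.Bc y := fun s y => by
    have := sum_iso h_zel hL hx hb h_ziso hb hB hv s (lin y)
    rw [show pm ⟨false, false, false⟩ (1, 0) s = Equiv.swap 1 2 s by simp [pm, fm, vm],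
      show fm ⟨false, false, false⟩ (1, 0) q.Bc = q.Bc + (1, 0) by simp [fm, vm, Prod.ext_iff]]
      at this
    refine this.trans (sum_congr rfl fun X hX => congrArg (· / _) ?_)
    obtain ⟨h1, h2, -⟩ := mem_smalls.1 hX
    refine integral_congr_ae (.of_forall fun ω => ?_)
    refine Eq.trans (congrArg _ ?_) (hx.shK _ 0 s X _ (y.1 * q.l j) hb ⟨h1, h2⟩)
    ext p
    simp [lin, vm, smul]; ring
  have f1 := f 1
  have f2 := f 2
  rw [Equiv.swap_apply_left] at f1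
  rw [Equiv.swap_apply_right] at f2
  simp only [Par.lam', Par.dl, Par.qB, f1, f2, hx.lam12]
  ring

end Pool.Agent.Lib.MP_9cc147_pr.Cx.T
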