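import Pool.Agent.Lib.MP_9cc147_pr.Cx.T.Geo2

/-! Closure properties of the local sums: subalgebras and domination. -/

open scoped Classical Topology ComplexConjugate
open Finset MeasureTheory ProbabilityTheory Filter

noncomputable section
namespace Pool.Agent.Lib.MP_9cc147_pr.Cx.T

theorem lw_dead {L s0 : ℕ} {D U : Finset P} {c : P → Sf} (h : ¬ live s0 (reg L D U) c)
    (T M : Lab → P → ℂ) (K : Lab → Finset P → ℂ) (N : Finset P → (P → Option Lab) → ℂ) :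
    lw L s0 D U T M K N c = 0 := by
  unfold live at h
  push Not at h
  obtain ⟨X, hX, e⟩ := h
  obtain ⟨s, -, hs⟩ := mem_biUnion.1 hX
  have : ∏ s, ∏ X ∈ comps (pol (reg L D U) (red c) s), fw s0 c X * K s X = 0 :=
    prod_eq_zero (mem_univ s) (prod_eq_zero hs (by rw [e, zero_mul]))
  simp [lw, this]

theorem comps_sub {Y X : Finset P} (h : X ∈ comps Y) : X ⊆ Y := by
  obtain ⟨a, -, rfl⟩ := mem_image.1 h; exact filter_subset _ _
theorem mem_pcs {R X : Finset P} {c : P → Sf} {s : Lab} (h : X ∈ comps (pol R (red c) s)) :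
    X ∈ pcs R c := mem_biUnion.2 ⟨s, mem_univ s, h⟩
theorem kind_of {R : Finset P} {c : P → Sf} {s : Lab} {B : P}
    (h : B ∈ R.filter fun b => c b = some (s, 1)) : B ∈ kind R c 1 :=
  mem_filter.2 ⟨(mem_filter.1 h).1, s, (mem_filter.1 h).2⟩

section
variable {Y ι : Type} {A : Subalgebra ℂ (Y → ℂ)}
theorem A_const (a : ℂ) : (fun _ : Y => a) ∈ A := A.algebraMap_mem a
theorem A_mul {f g : Y → ℂ} (hf : f ∈ A) (hg : g ∈ A) : (fun y => f y * g y) ∈ A := A.mul_mem hf hg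
theorem A_prod {S : Finset ι} {f : Y → ι → ℂ} (h : ∀ i ∈ S, (fun y => f y i) ∈ A) :
    (fun y => ∏ i ∈ S, f y i) ∈ A := by
  have := A.prod_mem h
  convert this using 1
  ext y; simp
theorem A_sum {S : Finset ι} {f : Y → ι → ℂ} (h : ∀ i ∈ S, (fun y => f y i) ∈ A) :
    (fun y => ∑ i ∈ S, f y i) ∈ A := by
  have := A.sum_mem h
  convert this using 1
  ext y; simp
end

theorem _root_.Pool.Agent.Lib.MP_9cc147_pr.Cx.t_T_mem (h_one : S_one) : S_T_mem := by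
  intro Y A L s0 D U T M K N hL hU hne hT hK
  have key : ∀ N : Y → Finset P → (P → Option Lab) → ℂ,
      (∀ X σ, Conn X → X ⊆ under L U → (fun y => N y X σ) ∈ A) → ∀ c ∈ loc L s0 D U,
      (fun y => lw L s0 D U (T y) (M y) (K y) (N y) c) ∈ A := fun N hN c hc => by
    by_cases hl : live s0 (reg L D U) c
    · obtain ⟨-, h1, h2, h3, h4⟩ := (h_one L s0 D U hL hU hne).1 c hc hl
      refine A_mul (A_mul (A_mul (A_prod fun s _ => A_prod fun B hB => ?_)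
        (A_prod fun s _ => A_prod fun B hB => ?_)) (A_prod fun s _ => A_prod fun X hX => ?_))
        (A_prod fun X hX => ?_)
      · exact (hT s B (mem_filter.1 hB).1).1
      · exact (hT s B (h1 (kind_of hB))).2
      · exact A_mul (A_const _) (hK s X (h3 X (mem_pcs hX)).1 (h3 X (mem_pcs hX)).2)
      · exact hN X _ (h4 X (mem_union_right _ hX)).1 ((comps_sub hX).trans h2)
    · simp only [lw_dead hl]; exact A_const 0
  exact ⟨fun s => A_sum fun c hc => key (fun _ _ _ => 0) (fun _ _ _ _ => A_const 0) c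
    (filter_subset _ _ hc), fun hN σ => A_sum fun c hc => key N hN c (filter_subset _ _ hc)⟩

/-- dominated by `exp w`, uniformly in the parameter -/
def Dm {T : Type} (w : Om → ℝ) (F : T → Om → ℂ) : Prop :=
  ∃ c : ℝ, 0 ≤ c ∧ ∀ τ ω, ‖F τ ω‖ ≤ c * Real.exp (w ω)

section
variable {T ι : Type} {w w' : Om → ℝ} {F G : T → Om → ℂ}
theorem Dm.mono (h : Dm w F) (e : ∀ ω, w ω ≤ w' ω) : Dm w' F :=
  let ⟨c, h0, h1⟩ := h
  ⟨c, h0, fun τ ω => (h1 τ ω).trans (mul_le_mul_of_nonneg_left (Real.exp_le_exp.2 (e ω)) h0)⟩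
theorem Dm.mul (h : Dm w F) (h' : Dm w' G) :
    Dm (fun ω => w ω + w' ω) fun τ ω => F τ ω * G τ ω := by
  obtain ⟨c, h0, h1⟩ := h
  obtain ⟨c', h0', h1'⟩ := h'
  refine ⟨c * c', by positivity, fun τ ω => ?_⟩
  rw [norm_mul, Real.exp_add]
  calc _ ≤ (c * Real.exp (w ω)) * (c' * Real.exp (w' ω)) :=
        mul_le_mul (h1 τ ω) (h1' τ ω) (norm_nonneg _) (by positivity)
    _ = _ := by ring
theorem Dm.bdd {c : ℝ} (h : ∀ τ ω, ‖F τ ω‖ ≤ c) : Dm (fun _ => 0) F :=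
  ⟨|c|, abs_nonneg c, fun τ ω => by simpa using (h τ ω).trans (le_abs_self c)⟩
theorem Dm.sub_one (h : Dm w F) (e : ∀ ω, 0 ≤ w ω) : Dm w fun τ ω => F τ ω - 1 := by
  obtain ⟨c, h0, h1⟩ := h
  refine ⟨c + 1, by positivity, fun τ ω => (norm_sub_le _ _).trans ?_⟩
  have := Real.one_le_exp (e ω)
  have := h1 τ ω
  rw [norm_one]; linarith
theorem Dm.prod {S : Finset ι} {u : ι → Om → ℝ} {f : ι → T → Om → ℂ}
    (h : ∀ i ∈ S, Dm (u i) (f i)) :
    Dm (fun ω => ∑ i ∈ S, u i ω) fun τ ω => ∏ i ∈ S, f i τ ω := by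
  induction S using Finset.induction_on with
  | empty => simpa using Dm.bdd (F := fun (_ : T) _ => (1 : ℂ)) (c := 1) (by simp)
  | insert a S ha ih =>
    simp only [sum_insert ha, prod_insert ha]
    exact (h a (mem_insert_self _ _)).mul (ih fun i hi => h i (mem_insert_of_mem hi))
theorem Dm.sums {S : Finset ι} {f : ι → T → Om → ℂ} (h : ∀ i ∈ S, Dm w (f i)) :
    ∃ c : ℝ, 0 ≤ c ∧ ∀ τ ω, ∀ S' ⊆ S, ‖∑ i ∈ S', f i τ ω‖ ≤ c * Real.exp (w ω) := by
  choose! c h0 h1 using h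
  refine ⟨∑ i ∈ S, c i, sum_nonneg h0, fun τ ω S' hS => (norm_sum_le _ _).trans ?_⟩
  rw [sum_mul]
  exact (sum_le_sum_of_subset_of_nonneg hS fun _ _ _ => norm_nonneg _).trans
    (sum_le_sum fun i hi => h1 i hi τ ω)
end

theorem sum_fam {J : Finset (Finset P)} {R : Finset P} {f : P → ℝ} (hf : ∀ B, 0 ≤ f B)
    (hR : ∀ X ∈ J, X ⊆ R) (hJ : ∀ X ∈ J, ∀ Y ∈ J, X ≠ Y → ∀ a ∈ X, ∀ b ∈ Y, ¬ nr 1 a b) :
    ∑ X ∈ J, ∑ B ∈ X, f B ≤ ∑ B ∈ R, f B := by
  have := sum_biUnion (s := J) (t := id) (f := f) fun X hX Y hY e =>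
    disjoint_left.2 fun a ha hb => hJ X hX Y hY e a ha a hb (nr_refl _ _)
  simp only [id] at this
  rw [← this]
  exact sum_le_sum_of_subset_of_nonneg (biUnion_subset.2 hR) fun _ _ _ => hf _

theorem fw_le (s0 : ℕ) (c : P → Sf) (X : Finset P) : ‖fw s0 c X‖ ≤ 1 := by
  unfold fw
  split_ifs <;> simp
  exact Nat.cast_inv_le_one _

theorem lw_dm (h_one : S_one) {Z : Type} {L s0 : ℕ} {D U : Finset P} (hL : 2 * s0 + 1 ≤ L)
    (hU : U ⊆ D) (hne : U.Nonempty) {T : Z → Lab → P → ℂ} {M : Z → Om → Lab → P → ℂ}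
    {K : Z → Om → Lab → Finset P → ℂ} {N : Z → Om → Finset P → (P → Option Lab) → ℂ}
    {f : P → Om → ℝ} (hf : ∀ B ω, 0 ≤ f B ω)
    (hT : ∀ s, ∀ B ∈ under L U, Dm (fun _ => 0) fun τ _ => T τ s B)
    (hM : ∀ s, ∀ B ∈ under L U, Dm (f B) fun τ ω => M τ ω s B)
    (hK : ∀ s X, Conn X → X ⊆ near s0 (reg L D U) (under L U) →
      Dm (fun ω => ∑ B ∈ X, f B ω) fun τ ω => K τ ω s X)
    (hN : ∀ X σ, Conn X → X ⊆ under L U → Dm (fun ω => ∑ B ∈ X, f B ω) fun τ ω => N τ ω X σ) :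
    ∃ c : ℝ, 0 ≤ c ∧ ∀ τ ω, ∀ S ⊆ loc L s0 D U, ‖∑ c ∈ S, lw L s0 D U (T τ) (M τ ω) (K τ ω) (N τ ω) c‖ ≤
      c * Real.exp (7 * ∑ B ∈ reg L D U, f B ω) := by
  refine Dm.sums (f := fun c τ ω => lw L s0 D U (T τ) (M τ ω) (K τ ω) (N τ ω) c) fun c hc => ?_
  by_cases hl : live s0 (reg L D U) c
  swap
  · simp only [lw_dead hl]; exact ⟨0, le_rfl, by simp⟩
  obtain ⟨-, h1, h2, h3, h4⟩ := (h_one L s0 D U hL hU hne).1 c hc hl
  have a1 := Dm.prod (S := (univ : Finset Lab)) fun s _ => Dm.prod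
    (S := (under L U).filter fun b => lab (c b) = some s) fun B hB => hT s B (mem_filter.1 hB).1
  have a2 := Dm.prod (S := (univ : Finset Lab)) fun s _ => Dm.prod
    (S := (reg L D U).filter fun b => c b = some (s, 1)) fun B hB => hM s B (h1 (kind_of hB))
  have a3 := Dm.prod (S := (univ : Finset Lab)) fun s _ => Dm.prod
    (S := comps (pol (reg L D U) (red c) s)) fun X hX =>
      (Dm.bdd (F := fun (_ : Z) _ => fw s0 c X) fun _ _ => fw_le s0 c X).mul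
        (hK s X (h3 X (mem_pcs hX)).1 (h3 X (mem_pcs hX)).2)
  have a4 := Dm.prod (S := comps (bad (reg L D U) (red c))) fun X hX =>
    hN X (sig (reg L D U) (red c) X) (h4 X (mem_union_right _ hX)).1 ((comps_sub hX).trans h2)
  refine (((a1.mul a2).mul a3).mul a4).mono fun ω => ?_
  have b2 : ∀ s : Lab, ∑ B ∈ (reg L D U).filter fun b => c b = some (s, 1), f B ω ≤
      ∑ B ∈ reg L D U, f B ω := fun s =>
    sum_le_sum_of_subset_of_nonneg (filter_subset _ _) fun _ _ _ => hf _ _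
  have b3 : ∀ s : Lab, ∑ X ∈ comps (pol (reg L D U) (red c) s), ∑ B ∈ X, f B ω ≤
      ∑ B ∈ reg L D U, f B ω := fun s => sum_fam (hf · ω)
    (fun X hX => (comps_sub hX).trans (filter_subset _ _)) fun X hX Y hY =>
      (h4 X (mem_union_left _ (mem_pcs hX))).2 Y (mem_union_left _ (mem_pcs hY))
  have b4 : ∑ X ∈ comps (bad (reg L D U) (red c)), ∑ B ∈ X, f B ω ≤ ∑ B ∈ reg L D U, f B ω :=
    sum_fam (hf · ω) (fun X hX => (comps_sub hX).trans (filter_subset _ _)) fun X hX Y hY =>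
      (h4 X (mem_union_right _ hX)).2 Y (mem_union_right _ hY)
  simp only [Fin.sum_univ_three, sum_const_zero, zero_add]
  linarith [b2 0, b2 1, b2 2, b3 0, b3 1, b3 2]

end Pool.Agent.Lib.MP_9cc147_pr.Cx.T
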