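import Pool.Agent.Lib.MP_9cc147_pr.Cx.T.Tesy

/-! The structural properties of a state are kept by the step. -/

open scoped Classical Topology ComplexConjugate
open Finset MeasureTheory ProbabilityTheory Filter

noncomputable section
namespace Pool.Agent.Lib.MP_9cc147_pr.Cx.T

/-- holomorphic functions as a subalgebra -/
def holA (O : Set ℂ) : Subalgebra ℂ (ℂ → ℂ) where
  carrier := {f | DifferentiableOn ℂ f O}
  mul_mem' ha hb := DifferentiableOn.mul ha hb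
  add_mem' ha hb := DifferentiableOn.add ha hb
  algebraMap_mem' _ := differentiableOn_const _

theorem It_ne (q : Par) (j : ℕ) (x : State) (b : ℕ × ℕ) (z : ℂ) (Θ : Fld) (s : Lab) (B : P) :
    q.It j x b z Θ s B ≠ 0 := mul_ne_zero (Complex.exp_ne_zero _) (Complex.exp_ne_zero _)

theorem cell_box {q : Par} (hL : 100 ≤ q.L) {b : ℕ × ℕ} {j : ℕ} (hb : Par.ok b (j + 1)) {B B' : P}
    (h : B' ∈ box (q.m b (j + 1))) (k : B ∈ cell q.L B') : B ∈ box (q.m b j) := by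
  rw [m_succ q hb, ← par_box (by omega), (mem_cell (by omega)).1 k]; exact h

theorem mv_fine {q : Par} (hL : 100 ≤ q.L) {b b' : ℕ × ℕ} {j : ℕ} (hb : Par.ok b (j + 1))
    (hb' : Par.ok b' (j + 1)) {g : Sy} {c : P} {U V : Finset P}
    (h : Mv (q.m b (j + 1)) (q.m b' (j + 1)) g c U) (hV : ∀ a ∈ V, ∃ a' ∈ under q.L U, nr 8 a' a) :
    Mv (q.m b j) (q.m b' j) g (smul q.L c) V := by
  rw [m_succ q hb, m_succ q hb']; exact Mv_down hL h hV

theorem vis8 {q : Par} {b : ℕ × ℕ} {j : ℕ} {U : Finset P} {B : P} (h : B ∈ vis q b j U)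
    (R : Finset P) : ∀ a ∈ near 4 R {B}, ∃ a' ∈ under q.L U, nr 8 a' a := fun a ha => by
  obtain ⟨-, a', h1, h2⟩ := mem_near.1 h
  obtain ⟨-, a'', h3, h4⟩ := mem_near.1 ha
  rw [mem_singleton.1 h3] at h4
  exact ⟨a', h1, nr_trans h2 h4 le_rfl⟩

section
variable (h_tra : S_tra) (hm : S_T_meas) (h_zel : S_zel) {q : Par} {t0 : ℝ} {j : ℕ} {x : State}
  (hL : 100 ≤ q.L) (hx : q.Str t0 j x) {b : ℕ × ℕ} (hb : Par.ok b (j + 1))
include hL hx hb

theorem d_far (z : ℂ) (s : Lab) {B : P} (hB : B ∈ box (q.m b (j + 1)))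
    (h : ¬ ab (q.m b (j + 1)) B) : q.d' j x b z s B = q.d' j x b 0 s B := by
  simp only [Par.d', Par.D']
  split_ifs
  · refine sum_congr rfl fun a ha => ?_
    have h1 := cell_box hL hb hB ha
    have h2 : ¬ ab (q.m b (j + 1)) (par q.L a) := by rwa [(mem_cell (by omega)).1 ha]
    rw [et_far hL hx hb h1 z s h2, et_far hL hx hb h1 z 0 h2, et_zero, et_zero,
      hx.fard b z s a (ok_pred hb) h1 fun k => h2 ?_]
    rw [m_succ q hb] at h1 k
    exact ab_par hL h1 k (nr_refl _ _)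
  · rfl

include h_zel

theorem d_neg (z : ℂ) (s : Lab) {B : P} (hB : B ∈ box (q.m b (j + 1))) :
    q.d' j x b (-z) s B = q.d' j x b z s B := by
  simp only [Par.d', Par.D', et_neg h_zel hL hx (ok_pred hb)]
  split_ifs
  · exact sum_congr rfl fun a ha => by rw [hx.negd b z s a (ok_pred hb) (cell_box hL hb hB ha)]
  · rfl

theorem d_cj (s : Lab) {B : P} (hB : B ∈ box (q.m b (j + 1))) :
    q.d' j x b 0 s B = conj (q.d' j x b 0 s B) := by
  unfold Par.d'
  split_ifs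
  · rw [Par.D', map_sum]
    exact sum_congr rfl fun a ha => by
      rw [map_sub, map_add, et_zero, et_zero, ← e_cj h_zel hL hx (ok_pred hb),
        ← e_cj h_zel hL hx (ok_pred hb),
        Complex.conj_eq_iff_im.2 (hx.cjd b s a (ok_pred hb) (cell_box hL hb hB ha))]
  · exact (Complex.conj_ofReal _).symm

theorem d_iso (h_ziso : S_ziso) (ho : Odd q.L) {b' : ℕ × ℕ} (hb' : Par.ok b' (j + 1)) {g : Sy}
    {c B : P} (hB : B ∈ box (q.m b (j + 1)))
    (h : Mv (q.m b (j + 1)) (q.m b' (j + 1)) g c {B}) (s : Lab) :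
    q.d' j x b' 0 (pm g c s) (fm g c B) = q.d' j x b 0 s B := by
  rw [Par.d', Par.d', if_neg (Mv_corner (mem_singleton_self B) hB h.2.1),
    if_neg (Mv_corner (mem_image_of_mem _ (mem_singleton_self B))
      ((h.1 B ⟨B, mem_singleton_self B, nr_refl _ _⟩).1 hB) h.2.2), Par.D', Par.D',
    cell_fm (by omega), sum_image (fm_inj _ _).injOn, sum_congr rfl fun a ha => ?_]
  have h1 := cell_box hL hb hB ha
  have h2 : a ∈ under q.L {B} := by simpa [under] using ha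
  have h3 := mv_fine hL hb hb' h (vis8 (under_vis hL (singleton_subset_iff.2 hB) h2) (box (q.m b j)))
  have e := e_iso h_zel hL hx (ok_pred hb) h_ziso (ok_pred hb') h1 h3
  have e0 := e 0
  rw [pm_zero] at e0
  rw [et_zero, et_zero, et_zero, et_zero, ← pm_smul ho, e, e0,
    hx.isod b b' g _ s a (ok_pred hb) (ok_pred hb') h1 (Mv_mono h3 (singleton_subset_iff.2
      (mem_near.2 ⟨h1, a, mem_singleton_self a, nr_refl _ _⟩)))]

include h_tra hm
variable {U : Finset P} (hU : Pm (q.m b (j + 1)) U)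
include hU

omit h_zel in
theorem s_loc (z : ℂ) {Θ Ξ : Fld} (e : ∀ p ∈ nbs (q.l (j + 1)) U ∩ sqr (q.n b), Θ p = Ξ p) :
    (∀ s, ((q.step j x).a b z).K s U Θ = ((q.step j x).a b z).K s U Ξ) ∧
    ∀ σ, ((q.step j x).a b z).N U σ Θ = ((q.step j x).a b z).N U σ Ξ := by
  have hv := vis_box hL hb U
  have k : ∀ X ⊆ vis q b j U, ∀ ξ : Fld, ∀ p ∈ nbs (q.l j) X ∩ sqr (q.n b),
      (Θ + ξ) p = (Ξ + ξ) p := fun X hX ξ p hp => congrArg (· + ξ p) (e p (by
    rw [l_succ]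
    exact inter_subset_inter_right (t_T_strip q.L 0 (q.l j) 0 0 U X 0 hL (l_pos q hL j)
      (near8 (by norm_num) hX)).1 hp))
  have i : ∀ lam, ∀ B ∈ vis q b j U, ∀ ξ : Fld,
      q.Ih b j z lam B (Θ + ξ) = q.Ih b j z lam B (Ξ + ξ) := fun lam B hB ξ => by
    rw [Par.Ih, Par.Ih, Par.Qz, Par.Qz, En_congr fun y hy d =>
      k _ le_rfl ξ _ (crn_nbs (ok_pred hb) (hv hB) hB hy d)]
  exact st_same h_tra hm hL hx hb hU js_id (.id _) (fun _ _ _ => rfl) (fun _ _ _ => rfl)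
    (fun _ _ _ => rfl) (fun _ _ _ => rfl) (fun lam B hB => by simpa using i lam B hB 0)
    (fun ω lam B hB => i lam B (under_vis hL hU.1 hB) _)
    (fun ω s X c h => (hx.locK b z s X (ok_pred hb) ⟨h.trans hv, c⟩).2 _ _ (k X h _))
    fun ω X σ c h => (hx.locN b z X σ (ok_pred hb) ⟨h.trans hv, c⟩).2 _ _ (k X h _)

omit h_zel in
theorem s_sh (z : ℂ) (Θ : Fld) (c : ℂ) :
    (∀ s, ((q.step j x).a b z).K s U (fun p => Θ p + c) = ((q.step j x).a b z).K s U Θ) ∧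
    ∀ σ, ((q.step j x).a b z).N U σ (fun p => Θ p + c) = ((q.step j x).a b z).N U σ Θ := by
  have hv := vis_box hL hb U
  have k : ∀ ξ : Fld, (fun p => Θ p + c) + ξ = fun p => (Θ + ξ) p + c := fun ξ => by
    ext p; simp only [Pi.add_apply]; ring
  exact st_same h_tra hm hL hx hb hU js_id (.id _) (fun _ _ _ => rfl) (fun _ _ _ => rfl)
    (fun _ _ _ => rfl) (fun _ _ _ => rfl) (fun lam B _ => gp_Ih_shift q b j z lam B Θ c)
    (fun ω lam B _ => by rw [k]; exact gp_Ih_shift q b j z lam B _ c)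
    (fun ω s X a h => by rw [k]; exact hx.shK b z s X _ c (ok_pred hb) ⟨h.trans hv, a⟩)
    fun ω X σ a h => by rw [k]; exact hx.shN b z X σ _ c (ok_pred hb) ⟨h.trans hv, a⟩

theorem s_neg (z : ℂ) (Θ : Fld) :
    (∀ s, ((q.step j x).a b (-z)).K s U (-Θ) = ((q.step j x).a b z).K s U Θ) ∧
    ∀ σ, ((q.step j x).a b (-z)).N U σ (-Θ) = ((q.step j x).a b z).N U σ Θ := by
  have hv := vis_box hL hb U
  have hb0 := ok_pred hb
  have k : ∀ ω, -Θ + cf (zeta q.L (q.n b) j ω) = -(Θ + cf (zeta q.L (q.n b) j (-ω))) := fun ω => by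
    rw [((h_zel.2 q.L (q.n b) j hL (n_pos q hL hb)).2.2.1 ω).1, cf_neg, neg_add, neg_neg]
  exact st_same h_tra hm hL hx hb hU js_id (neg_pp h_zel)
    (fun s B _ => e_neg h_zel hL hx hb0 z s B) (fun s B _ => et_neg h_zel hL hx hb0 z s B)
    (fun s B h => hx.negd b z s B hb0 (hv (under_vis hL hU.1 h)))
    (fun s B h => d_neg h_zel hL hx hb z s (hU.1 h)) (fun lam B _ => gp_Ih_neg q b j z lam B Θ)
    (fun ω lam B _ => by rw [k]; exact gp_Ih_neg q b j z lam B _)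
    (fun ω s X a h => by rw [k]; exact hx.negK b z s X _ hb0 ⟨h.trans hv, a⟩)
    fun ω X σ a h => by rw [k]; exact hx.negN b z X σ _ hb0 ⟨h.trans hv, a⟩

theorem s_cj (Θ : Fld) :
    (∀ s, ((q.step j x).a b 0).K s U (fun p => conj (Θ p)) =
      conj (((q.step j x).a b 0).K s U Θ)) ∧
    ∀ σ, ((q.step j x).a b 0).N U σ (fun p => conj (Θ p)) =
      conj (((q.step j x).a b 0).N U σ Θ) := by
  have hv := vis_box hL hb U
  have hb0 := ok_pred hb
  have k : ∀ ξ, (fun p => conj (Θ p)) + cf ξ = fun p => conj ((Θ + cf ξ) p) := fun ξ => by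
    ext p; simp [cf]
  exact st_same h_tra hm hL hx hb hU js_conj (.id _)
    (fun s B _ => e_cj h_zel hL hx hb0 s B)
    (fun s B _ => by rw [et_zero]; exact e_cj h_zel hL hx hb0 s B)
    (fun s B h => (Complex.conj_eq_iff_im.2 (hx.cjd b s B hb0 (hv (under_vis hL hU.1 h)))).symm)
    (fun s B h => d_cj h_zel hL hx hb s (hU.1 h)) (fun lam B _ => gp_Ih_conj q b j lam B Θ)
    (fun ω lam B _ => by rw [k]; exact gp_Ih_conj q b j lam B _)
    (fun ω s X a h => by rw [k]; exact hx.cjK b s X _ hb0 ⟨h.trans hv, a⟩)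
    fun ω X σ a h => by rw [k]; exact hx.cjN b X σ _ hb0 ⟨h.trans hv, a⟩

omit h_zel in
theorem s_far (z : ℂ) (Θ : Fld) (n : ¬ spec (q.m b (j + 1)) U) :
    (∀ s, ((q.step j x).a b z).K s U Θ = ((q.step j x).a b 0).K s U Θ) ∧
    ∀ σ, ((q.step j x).a b z).N U σ Θ = ((q.step j x).a b 0).N U σ Θ := by
  have hv := vis_box hL hb U
  have uv := under_vis hL hU.1
  have hb0 := ok_pred hb
  have k : ∀ B ∈ vis q b j U, ∀ B', ab (q.m b j) B' → ¬ nr 5 B B' := fun B hB => by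
    obtain ⟨a, h1, h2⟩ := near8 (by norm_num) (Subset.refl (vis q b j U)) B hB
    rw [m_succ q hb]; exact far_ab hL hU.1 n h1 h2
  have k1 : ∀ B ∈ vis q b j U, ¬ ab (q.m b j) B := fun B hB h => k B hB B h (nr_refl _ _)
  have k2 : ∀ X ⊆ vis q b j U, ¬ spec (q.m b j) X := fun X h => by
    rw [m_succ q hb]; exact far_spec hL hU.1 n (near8 (by norm_num) h)
  exact st_same h_tra hm hL hx hb hU js_id (.id _)
    (fun s B h => e_far hL hx hb0 z s (k B h))
    (fun s B h => by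
      rw [et_zero]
      exact et_far hL hx hb (hv (uv h)) z s fun a => n (ab_spec ((mem_under (by omega)).1 h) a))
    (fun s B h => hx.fard b z s B hb0 (hv (uv h)) (k1 B (uv h)))
    (fun s B h => d_far hL hx hb z s (hU.1 h) fun a => n (ab_spec h a))
    (fun lam B h => gp_Ih_far q (k1 B h) z lam Θ)
    (fun ω lam B h => gp_Ih_far q (k1 B (uv h)) z lam _)
    (fun ω s X a h => congrFun (hx.farK b z s X hb0 ⟨h.trans hv, a⟩ (k2 X h)) _)
    fun ω X σ a h => congrFun (hx.farN b z X σ hb0 ⟨h.trans hv, a⟩ (k2 X h)) _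

theorem s_iso (h_ziso : S_ziso) (ho : Odd q.L) {b' : ℕ × ℕ} (hb' : Par.ok b' (j + 1)) {g : Sy}
    {c : P} (h : Mv (q.m b (j + 1)) (q.m b' (j + 1)) g c U) (Θ : Fld) :
    (∀ s, ((q.step j x).a b' 0).K (pm g c s) (U.image (fm g c)) Θ =
      ((q.step j x).a b 0).K s U (Θ ∘ vm g (smul (q.l (j + 1)) c))) ∧
    ∀ σ σ', (∀ B, σ' (fm g c B) = (σ B).map (pm g c)) →
      ((q.step j x).a b' 0).N (U.image (fm g c)) σ' Θ =
        ((q.step j x).a b 0).N U σ (Θ ∘ vm g (smul (q.l (j + 1)) c)) := by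
  have hv := vis_box hL hb U
  have uv := under_vis hL hU.1
  have hb0 := ok_pred hb
  have hb1 := ok_pred hb'
  obtain ⟨hΨ, hz⟩ := h_ziso q j g (smul q.L c) hL
  have mv : ∀ X ⊆ vis q b j U, Mv (q.m b j) (q.m b' j) g (smul q.L c) X := fun X k =>
    mv_fine hL hb hb' h (near8 (by norm_num) k)
  have k : ∀ ω, ∀ X ⊆ vis q b j U, ∀ p ∈ nbs (q.l j) X ∩ sqr (q.n b),
      ((Θ + cf (zeta q.L (q.n b') j ω)) ∘ vm g (smul (q.l j) (smul q.L c))) p =
        (Θ ∘ vm g (smul (q.l j) (smul q.L c)) + cf (zeta q.L (q.n b) j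
          fun i => ω (i.1, vm g (smul (q.l j) (smul q.L c)) i.2))) p := fun ω X a p hp => by
    simp only [Function.comp, Pi.add_apply, cf, (hz b b' X hb0 hb1 (a.trans hv) (mv X a) ω p hp).2]
  have e : ∀ s, ∀ B ∈ vis q b j U,
      q.e j x b' 0 (pm g (smul q.L c) s) (fm g (smul q.L c) B) = q.e j x b 0 s B := fun s B a =>
    e_iso h_zel hL hx hb0 h_ziso hb1 (hv a) (mv_fine hL hb hb' h (vis8 a _)) s
  have := st_tra h_tra hm hL hx hb hU (fE g (smul q.L c)) (fE g c) (pE g (smul q.L c)) js_id hΨ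
    (nr_fm 1 g _) (nr_fm 1 g c) (par_fm (by omega) g c) (Mv_near h) (by rw [pE_coe, pm_zero])
    (z := 0) (z' := 0) (Θ := Θ ∘ vm g (smul (q.l j) (smul q.L c))) (Θ' := Θ)
    (fun s B a => by rw [pE_coe]; exact e s B a)
    (fun s B a => by rw [pE_coe, et_zero, et_zero]; exact e s B (uv a))
    (fun s B a => by
      rw [pE_coe]
      exact hx.isod b b' g _ s B hb0 hb1 (hv (uv a)) (mv _ (singleton_subset_iff.2 (uv a))))
    (fun s B a => by
      rw [pE_coe, pm_smul ho]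
      exact d_iso h_zel hL hx hb h_ziso ho hb' (hU.1 a) (Mv_mono h (singleton_subset_iff.2 a)) s)
    (fun s B _ => by
      rw [pE_coe, lam_pm (lam'_12 h_zel h_ziso hL hx)]; exact gp_Ih_vm q b b' j _ g _ B Θ)
    (fun ω s B a => by
      rw [pE_coe, lam_pm hx.lam12, fE_coe, gp_Ih_vm q b b', gp_Ih_zero, gp_Ih_zero,
        En_congr fun y hy d => k ω _ le_rfl _ (crn_nbs hb0 (hv (uv a)) (uv a) hy d)]
      rfl)
    (fun ω s X a a' => by
      rw [pE_coe, fE_coe, hx.isoK b b' g _ s X _ hb0 hb1 ⟨a'.trans hv, a⟩ (mv X a')]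
      exact (hx.locK b 0 s X hb0 ⟨a'.trans hv, a⟩).2 _ _ (k ω X a'))
    fun ω X σ σ' a a' r => by
      rw [pE_coe] at r
      rw [fE_coe, hx.isoN b b' g _ X σ σ' _ hb0 hb1 ⟨a'.trans hv, a⟩ (mv X a') r]
      exact (hx.locN b 0 X σ hb0 ⟨a'.trans hv, a⟩).2 _ _ (k ω X a')
  rwa [pE_coe, pm_smul ho, smul_smul', ← l_succ] at this

end

end Pool.Agent.Lib.MP_9cc147_pr.Cx.T
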