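import Pool.Agent.Lib.MP_9cc147_pr.Cx.T.Esy

/-! The symmetries of the extracted constants, collected. -/

open scoped Classical Topology ComplexConjugate
open Finset MeasureTheory ProbabilityTheory Filter

noncomputable section
namespace Pool.Agent.Lib.MP_9cc147_pr.Cx

theorem T.et_far {q : Par} {t0 : ℝ} {j : ℕ} {x : State} (hL : 100 ≤ q.L) (hx : q.Str t0 j x)
    {b : ℕ × ℕ} (hb : Par.ok b (j + 1)) {B : P} (hB : B ∈ box (q.m b j)) (z : ℂ) (s : Lab)
    (h : ¬ ab (q.m b (j + 1)) (par q.L B)) : q.et j x b z s B = q.e j x b 0 s B := by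
  rw [Par.et, Par.xt, if_neg fun k => h k.1, add_zero]
  refine T.e_far hL hx (T.ok_pred hb) z s fun B' k e => h ?_
  rw [T.m_succ q hb] at hB k
  exact T.ab_par hL hB k (T.nr_trans e (T.nr_refl 0 _) (by norm_num))

theorem T.et_neg (h_zel : S_zel) {q : Par} {t0 : ℝ} {j : ℕ} {x : State} (hL : 100 ≤ q.L)
    (hx : q.Str t0 j x) {b : ℕ × ℕ} (hb : Par.ok b j) (z : ℂ) (s : Lab) (B : P) :
    q.et j x b (-z) s B = q.et j x b z s B := by
  rw [Par.et, Par.et, T.e_neg h_zel hL hx hb, T.xt_neg]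

theorem t_esy (h_zel : S_zel) (h_ziso : S_ziso) (h_zmom : S_zmom) : S_esy := by
  filter_upwards [T.fp_base, h_zmom] with q ⟨hL, _, hκ, hh, _, _⟩ hmom
  intro t0 j x α ν ρ hx
  refine ⟨fun b s B hB hb => ⟨?_, fun O zf hO hz ht => ?_,
    fun z => T.et_neg h_zel hL hx.str (T.ok_pred hb) z s B,
    fun z h => T.et_far hL hx.str hb hB z s h⟩,
    fun b z s B _ hb h => T.e_far hL hx.str (T.ok_pred hb) z s h,
    fun b b' g c s B hB hb hb' h => T.e_iso h_zel hL hx.str hb h_ziso hb' hB h s⟩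
  · exact Complex.conj_eq_iff_im.1 (T.e_cj h_zel hL hx.str (T.ok_pred hb) s B).symm
  · exact (T.e_hol h_zel hL hκ hh hx (T.ok_pred hb)
      (fun S k => ((hmom b j (T.ok_pred hb)).1 S k).1) s B O zf hO hz ht).add
      (T.xt_hol q t0 b j _ B O zf hO hz ht)

end Pool.Agent.Lib.MP_9cc147_pr.Cx
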