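import Pool.Agent.Lib.MP_9cc147_pr.Cx.T.Maj
import Pool.Agent.Lib.MP_9cc147_pr.Cx.J.Sym

/-! Transport of one reblocking along a symmetry. -/

open scoped Classical Topology ComplexConjugate
open Finset MeasureTheory ProbabilityTheory Filter

noncomputable section
namespace Pool.Agent.Lib.MP_9cc147_pr.Cx.T

theorem under_img {L : ℕ} (hL : 0 < L) {β β' : P ≃ P} (hp : ∀ a, par L (β a) = β' (par L a))
    (U : Finset P) : under L (U.image β') = (under L U).image β := by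
  ext a
  obtain ⟨a, rfl⟩ := β.surjective a
  rw [β.injective.mem_finset_image, mem_under hL, mem_under hL, hp, β'.injective.mem_finset_image]

theorem int_tra {μ : Measure Om} {φ : ℂ →+* ℂ} (hφ : JsHom φ) {Ψ : Om → Om}
    (hΨ : MeasurePreserving Ψ μ μ) {F F' : Om → ℂ} (l : Measurable F)
    (h : ∀ ω, F' ω = φ (F (Ψ ω))) : ∫ ω, F' ω ∂μ = φ (∫ ω, F ω ∂μ) := by
  rw [integral_congr_ae (.of_forall h), hφ.int]
  congr 1
  conv_rhs => rw [← hΨ.map_eq, integral_map hΨ.measurable.aemeasurable l.aestronglyMeasurable]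

theorem meas_sec {F : Fld → Om → ℂ} (h : Measurable fun y : Fld × Om => F y.1 y.2) (Θ : Fld) :
    Measurable (F Θ) := h.comp (measurable_prodMk_left (x := Θ))

theorem rb_tra (h_tra : S_tra) {μ : Measure Om} {L s0 : ℕ} (hL : 2 * s0 + 1 ≤ L)
    {D D' U : Finset P} (hU : U ⊆ D) (β β' : P ≃ P) (π : Lab ≃ Lab) {φ : ℂ →+* ℂ} (hφ : JsHom φ)
    {Ψ : Om → Om} (hΨ : MeasurePreserving Ψ μ μ) (hβ : ∀ a b, nr 1 (β a) (β b) ↔ nr 1 a b)
    (hβ' : ∀ a b, nr 1 (β' a) (β' b) ↔ nr 1 a b) (hp : ∀ a, par L (β a) = β' (par L a))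
    (hD : near 1 D' (U.image β') = (near 1 D U).image β') (π0 : π 0 = 0) {a a' : Inp}
    (hI : ∀ s, ∀ B ∈ under L U, a'.It (π s) (β B) = φ (a.It s B))
    (he : ∀ s, ∀ B ∈ under L U, a'.et (π s) (β B) = φ (a.et s B))
    (hd : ∀ s, ∀ B ∈ under L U, a'.d (π s) (β B) = φ (a.d s B))
    (hd' : ∀ s, ∀ B ∈ U, a'.d' (π s) (β' B) = φ (a.d' s B))
    (hM : ∀ ω s, ∀ B ∈ under L U, a'.M ω (π s) (β B) = φ (a.M (Ψ ω) s B))
    (hK : ∀ ω s X, Conn X → X ⊆ near s0 (reg L D U) (under L U) →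
      a'.K ω (π s) (X.image β) = φ (a.K (Ψ ω) s X))
    (hN : ∀ ω X σ σ', Conn X → X ⊆ under L U → (∀ B, σ' (β B) = (σ B).map π) →
      a'.N ω (X.image β) σ' = φ (a.N (Ψ ω) X σ))
    (m0 : ∀ s, Measurable fun ω => L0 L s0 D U a.It (a.M ω) (a.K ω) s)
    (m1 : ∀ σ, Measurable fun ω =>
      L1 L s0 D U (fun s B => Complex.exp (-a.d s B) * a.It s B) (a.M ω) (a.K ω) (a.N ω) σ) :
    (∀ s, rbK μ L s0 D' a' (π s) (U.image β') = φ (rbK μ L s0 D a s U)) ∧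
    ∀ σ σ', (∀ B, σ' (β' B) = (σ B).map π) →
      rbN μ L s0 D' a' (U.image β') σ' = φ (rbN μ L s0 D a U σ) := by
  have t := fun ω T T' h => h_tra L s0 D D' U β β' π φ T (a.M (Ψ ω)) T' (a'.M ω) _ _ _ (a'.N ω)
    hL hU hβ hβ' hp hD h (hK ω) (hN ω)
  have sm : ∀ {γ : P ≃ P} {V : Finset P} {f f' : P → ℂ}, (∀ B ∈ V, f' (γ B) = φ (f B)) →
      Complex.exp (∑ B ∈ V.image γ, f' B) = φ (Complex.exp (∑ B ∈ V, f B)) := fun {γ _ _ _} h => by
    rw [hφ.exp, map_sum, sum_image γ.injective.injOn, sum_congr rfl h]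
  have e0 := he 0
  rw [π0] at e0
  have r1 : ∀ σ σ', (∀ B, σ' (β' B) = (σ B).map π) →
      rb1 μ L s0 D' a' (U.image β') σ' = φ (rb1 μ L s0 D a U σ) := fun σ σ' h => by
    rw [rb1, rb1, map_mul, under_img (by omega) hp]
    refine congrArg₂ _ (sm e0) (int_tra hφ hΨ (m1 σ) fun ω => (t ω _ _ fun s B k => ?_).2 σ σ' h)
    exact ⟨by rw [map_mul, hφ.exp, map_neg, hI s B k, hd s B k], hM ω s B k⟩
  refine ⟨fun s => ?_, fun σ σ' h => ?_⟩
  · simp only [rbK, js_ne hD, map_add]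
    congr 1
    · rw [rb0, rb0, map_mul, under_img (by omega) hp]
      exact congrArg₂ _ (sm (he s))
        (int_tra hφ hΨ (m0 s) fun ω => (t ω _ _ fun s B k => ⟨hI s B k, hM ω s B k⟩).1 s)
    · split_ifs
      · rw [map_mul, r1 _ _ (js_cst hD s)]
        exact congrArg (· * _) (sm (hd' s))
      · exact (map_zero φ).symm
  · simp only [rbN, js_nn hD h]
    split_ifs
    exacts [r1 σ σ' h, (map_zero φ).symm]

/-- the fine blocks seen by the step on `U` -/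
def vis (q : Par) (b : ℕ × ℕ) (j : ℕ) (U : Finset P) : Finset P :=
  near 4 (reg q.L (box (q.m b (j + 1))) U) (under q.L U)

theorem vis_box {q : Par} (hL : 100 ≤ q.L) {b : ℕ × ℕ} {j : ℕ} (hb : Par.ok b (j + 1))
    (U : Finset P) : vis q b j U ⊆ box (q.m b j) := near_sub.trans (reg_box q hL hb U)
theorem under_vis {q : Par} (hL : 100 ≤ q.L) {b : ℕ × ℕ} {j : ℕ} {U : Finset P}
    (hU : U ⊆ box (q.m b (j + 1))) : under q.L U ⊆ vis q b j U := under_near (by omega) hU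

theorem st_tra (h_tra : S_tra) (hm : S_T_meas) {q : Par} {t0 : ℝ} {j : ℕ} {x : State}
    (hL : 100 ≤ q.L) (hx : q.Str t0 j x) {b b' : ℕ × ℕ} (hb : Par.ok b (j + 1)) {U : Finset P}
    (hU : Pm (q.m b (j + 1)) U) (β β' : P ≃ P) (π : Lab ≃ Lab) {φ : ℂ →+* ℂ} (hφ : JsHom φ)
    {Ψ : Om → Om} (hΨ : MeasurePreserving Ψ PP PP) (hβ : ∀ a b, nr 1 (β a) (β b) ↔ nr 1 a b)
    (hβ' : ∀ a b, nr 1 (β' a) (β' b) ↔ nr 1 a b) (hp : ∀ a, par q.L (β a) = β' (par q.L a))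
    (hD : near 1 (box (q.m b' (j + 1))) (U.image β') =
      (near 1 (box (q.m b (j + 1))) U).image β') (π0 : π 0 = 0) {z z' : ℂ} {Θ Θ' : Fld}
    (he : ∀ s, ∀ B ∈ vis q b j U, q.e j x b' z' (π s) (β B) = φ (q.e j x b z s B))
    (ht : ∀ s, ∀ B ∈ under q.L U, q.et j x b' z' (π s) (β B) = φ (q.et j x b z s B))
    (hd : ∀ s, ∀ B ∈ under q.L U, (x.a b' z').d (π s) (β B) = φ ((x.a b z).d s B))
    (hd' : ∀ s, ∀ B ∈ U, q.d' j x b' z' (π s) (β' B) = φ (q.d' j x b z s B))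
    (hI : ∀ s, ∀ B ∈ vis q b j U,
      q.Ih b' j z' (q.lam' j x (π s)) (β B) Θ' = φ (q.Ih b j z (q.lam' j x s) B Θ))
    (hJ : ∀ ω s, ∀ B ∈ under q.L U,
      q.Ih b' j z' (x.lam (π s)) (β B) (Θ' + cf (zeta q.L (q.n b') j ω)) =
        φ (q.Ih b j z (x.lam s) B (Θ + cf (zeta q.L (q.n b) j (Ψ ω)))))
    (hK : ∀ ω s X, Conn X → X ⊆ vis q b j U →
      (x.a b' z').K (π s) (X.image β) (Θ' + cf (zeta q.L (q.n b') j ω)) =
        φ ((x.a b z).K s X (Θ + cf (zeta q.L (q.n b) j (Ψ ω)))))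
    (hN : ∀ ω X σ σ', Conn X → X ⊆ vis q b j U → (∀ B, σ' (β B) = (σ B).map π) →
      (x.a b' z').N (X.image β) σ' (Θ' + cf (zeta q.L (q.n b') j ω)) =
        φ ((x.a b z).N X σ (Θ + cf (zeta q.L (q.n b) j (Ψ ω))))) :
    (∀ s, ((q.step j x).a b' z').K (π s) (U.image β') Θ' = φ (((q.step j x).a b z).K s U Θ)) ∧
    ∀ σ σ', (∀ B, σ' (β' B) = (σ B).map π) →
      ((q.step j x).a b' z').N (U.image β') σ' Θ' = φ (((q.step j x).a b z).N U σ Θ) := by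
  have uv := under_vis hL hU.1
  have hT : ∀ s, ∀ B ∈ vis q b j U, q.It j x b' z' Θ' (π s) (β B) = φ (q.It j x b z Θ s B) :=
    fun s B h => by rw [Par.It, Par.It, map_mul, hφ.exp, map_neg, he s B h, hI s B h]
  obtain ⟨m0, m1⟩ := hm q t0 j x b z U hL hx hb hU
  have n0 : ∀ s, Measurable (q.J0 j x b z U s Θ) := fun s => meas_sec (m0 s) Θ
  have n1 : ∀ σ, Measurable (q.J1 j x b z U σ Θ) := fun σ => meas_sec (m1 σ) Θ
  have hM : ∀ ω s, ∀ B ∈ under q.L U, (q.inp j x b' z' Θ').M ω (π s) (β B) =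
      φ ((q.inp j x b z Θ).M (Ψ ω) s B) := fun ω s B k => by
    simp only [Par.inp, map_sub, map_div₀, map_one, hT s B (uv k), hJ ω s B k]
  have hK' : ∀ ω s X, Conn X → X ⊆ vis q b j U → (q.inp j x b' z' Θ').K ω (π s) (X.image β) =
      φ ((q.inp j x b z Θ).K (Ψ ω) s X) := fun ω s X c k => by
    simp only [Par.inp, map_div₀, map_prod, hK ω s X c k]
    rw [prod_image β.injective.injOn, prod_congr rfl fun B h => hT s B (k h)]
  exact rb_tra h_tra (L := q.L) (s0 := 4) (by omega) hU.1 β β' π hφ hΨ hβ hβ' hp hD π0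
    (a := q.inp j x b z Θ) (a' := q.inp j x b' z' Θ') (fun s B k => hT s B (uv k)) ht hd hd' hM hK'
    (fun ω X σ σ' c k => hN ω X σ σ' c (k.trans uv)) n0 n1

theorem st_same (h_tra : S_tra) (hm : S_T_meas) {q : Par} {t0 : ℝ} {j : ℕ} {x : State}
    (hL : 100 ≤ q.L) (hx : q.Str t0 j x) {b : ℕ × ℕ} (hb : Par.ok b (j + 1)) {U : Finset P}
    (hU : Pm (q.m b (j + 1)) U) {φ : ℂ →+* ℂ} (hφ : JsHom φ)
    {Ψ : Om → Om} (hΨ : MeasurePreserving Ψ PP PP) {z z' : ℂ} {Θ Θ' : Fld}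
    (he : ∀ s, ∀ B ∈ vis q b j U, q.e j x b z' s B = φ (q.e j x b z s B))
    (ht : ∀ s, ∀ B ∈ under q.L U, q.et j x b z' s B = φ (q.et j x b z s B))
    (hd : ∀ s, ∀ B ∈ under q.L U, (x.a b z').d s B = φ ((x.a b z).d s B))
    (hd' : ∀ s, ∀ B ∈ U, q.d' j x b z' s B = φ (q.d' j x b z s B))
    (hI : ∀ lam, ∀ B ∈ vis q b j U, q.Ih b j z' lam B Θ' = φ (q.Ih b j z lam B Θ))
    (hJ : ∀ ω lam, ∀ B ∈ under q.L U, q.Ih b j z' lam B (Θ' + cf (zeta q.L (q.n b) j ω)) =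
      φ (q.Ih b j z lam B (Θ + cf (zeta q.L (q.n b) j (Ψ ω)))))
    (hK : ∀ ω s X, Conn X → X ⊆ vis q b j U →
      (x.a b z').K s X (Θ' + cf (zeta q.L (q.n b) j ω)) =
        φ ((x.a b z).K s X (Θ + cf (zeta q.L (q.n b) j (Ψ ω)))))
    (hN : ∀ ω X σ, Conn X → X ⊆ vis q b j U →
      (x.a b z').N X σ (Θ' + cf (zeta q.L (q.n b) j ω)) =
        φ ((x.a b z).N X σ (Θ + cf (zeta q.L (q.n b) j (Ψ ω))))) :
    (∀ s, ((q.step j x).a b z').K s U Θ' = φ (((q.step j x).a b z).K s U Θ)) ∧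
    ∀ σ, ((q.step j x).a b z').N U σ Θ' = φ (((q.step j x).a b z).N U σ Θ) := by
  have := st_tra h_tra hm hL hx hb hU (.refl _) (.refl _) (.refl _) hφ hΨ (fun _ _ => .rfl)
    (fun _ _ => .rfl) (fun _ => rfl) (by simp) rfl he ht hd hd' (fun s => hI _)
    (fun ω s => hJ ω _) (fun ω s X c k => by simpa using hK ω s X c k)
    fun ω X σ σ' c k e => by
      rw [show σ' = σ from funext fun B => by simpa using e B]
      simpa using hN ω X σ c k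
  simp only [Equiv.coe_refl, image_id, id] at this
  exact ⟨this.1, fun σ => this.2 σ σ (by simp)⟩

end Pool.Agent.Lib.MP_9cc147_pr.Cx.T
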