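import Pool.Agent.Lib.MP_9cc147_pr.Cx.T.Sym

/-! The structural properties of a state are kept by the step. -/

open scoped Classical Topology ComplexConjugate
open Finset MeasureTheory ProbabilityTheory Filter

noncomputable section
namespace Pool.Agent.Lib.MP_9cc147_pr.Cx.T

theorem pp_prob : IsProbabilityMeasure PP := by unfold PP; infer_instance

theorem K_eq (q : Par) (j : ℕ) (x : State) (b : ℕ × ℕ) (z : ℂ) (s : Lab) (U : Finset P) (Θ : Fld) :
    ((q.step j x).a b z).K s U Θ =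
      Complex.exp (∑ B ∈ under q.L U, q.et j x b z s B) * ∫ ω, q.J0 j x b z U s Θ ω ∂PP +
      if (bdry (box (q.m b (j + 1))) U).Nonempty then
        Complex.exp (∑ B ∈ U, q.d' j x b z s B) * (Complex.exp (∑ B ∈ under q.L U, q.et j x b z 0 B) *
          ∫ ω, q.J1 j x b z U (cst (box (q.m b (j + 1))) U s) Θ ω ∂PP) else 0 := rfl
theorem N_eq (q : Par) (j : ℕ) (x : State) (b : ℕ × ℕ) (z : ℂ) (U : Finset P)
    (σ : P → Option Lab) (Θ : Fld) : ((q.step j x).a b z).N U σ Θ =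
      if Nn (box (q.m b (j + 1))) U σ then Complex.exp (∑ B ∈ under q.L U, q.et j x b z 0 B) *
        ∫ ω, q.J1 j x b z U σ Θ ω ∂PP else 0 := rfl

theorem meas_int {F : Fld → Om → ℂ} (h : Measurable fun y : Fld × Om => F y.1 y.2) :
    Measurable fun Θ => ∫ ω, F Θ ω ∂PP :=
  have := pp_prob
  (h.stronglyMeasurable.integral_prod_right').measurable

theorem s_meas (hm : S_T_meas) {q : Par} {t0 : ℝ} {j : ℕ} {x : State} (hL : 100 ≤ q.L)
    (hx : q.Str t0 j x) {b : ℕ × ℕ} (hb : Par.ok b (j + 1)) {U : Finset P}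
    (hU : Pm (q.m b (j + 1)) U) (z : ℂ) :
    (∀ s, Measurable (((q.step j x).a b z).K s U)) ∧
    ∀ σ, Measurable (((q.step j x).a b z).N U σ) := by
  obtain ⟨m0, m1⟩ := hm q t0 j x b z U hL hx hb hU
  refine ⟨fun s => ?_, fun σ => ?_⟩
  · rw [funext (K_eq q j x b z s U)]
    split_ifs
    · exact ((meas_int (m0 s)).const_mul _).add (((meas_int (m1 _)).const_mul _).const_mul _)
    · exact ((meas_int (m0 s)).const_mul _).add_const _
  · rw [funext (N_eq q j x b z U σ)]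
    split_ifs
    · exact (meas_int (m1 σ)).const_mul _
    · exact measurable_const

section
variable {q : Par} {t0 α ν ρ : ℝ} {j : ℕ} {x : State} (hL : 100 ≤ q.L)
  (hx : q.Good t0 j x α ν ρ) {b : ℕ × ℕ} (hb : Par.ok b (j + 1))
  (he : ∀ s B, Hz t0 fun z => q.e j x b z s B)
include he

theorem et_hol (s : Lab) (B : P) : Hz t0 fun z => q.et j x b z s B := fun O zf hO hz ht =>
  (he s B O zf hO hz ht).add (xt_hol q t0 b j _ B O zf hO hz ht)

include hL hx hb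

theorem d_hol (s : Lab) {B : P} (hB : B ∈ box (q.m b (j + 1))) :
    Hz t0 fun z => q.d' j x b z s B := fun O zf hO hz ht => by
  unfold Par.d'
  split_ifs
  · exact DifferentiableOn.fun_sum fun a ha =>
      ((hx.str.hold b s a (ok_pred hb) (cell_box hL hb hB ha) O zf hO hz ht).add
        (et_hol he s a O zf hO hz ht)).sub (et_hol he 0 a O zf hO hz ht)
  · exact differentiableOn_const _

theorem J_hol (h_one : S_one) (h_zel : S_zel) {U : Finset P} (hU : Pm (q.m b (j + 1)) U)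
    {θ : P → ℝ} (hθ : Dir (q.n b) θ) {O : Set ℂ} {zf : ℂ → ℂ} {vf : ℂ → Fld} (hO : IsOpen O)
    (hz : DifferentiableOn ℂ zf O) (hv : ∀ p, DifferentiableOn ℂ (fun τ => vf τ p) O)
    (ht : ∀ τ ∈ O, ‖zf τ‖ ≤ t0 ∧ Strip (q.n b) (q.l (j + 1)) q.h (q.L * q.h) U (vf τ)) (ω : Om) :
    (∀ s, DifferentiableOn ℂ
      (fun τ => q.J0 j x b (zf τ) U s (bg (q.n b) (zf τ) + cf θ + vf τ) ω) O) ∧
    ∀ σ, DifferentiableOn ℂ
      (fun τ => q.J1 j x b (zf τ) U σ (bg (q.n b) (zf τ) + cf θ + vf τ) ω) O := by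
  have hb0 := ok_pred hb
  have vb := vis_box hL hb U
  have uv := under_vis hL hU.1
  have hζ := ((h_zel.2 q.L (q.n b) j hL (n_pos q hL hb)).1 ω).1
  have t1 := fun τ h => (ht τ h).1
  set Θ : ℂ → Fld := fun τ => bg (q.n b) (zf τ) + cf θ + vf τ with hΘ
  have dΘ : ∀ p, DifferentiableOn ℂ (fun τ => Θ τ p) O := fun p =>
    ((hz.mul_const _).add_const _).add (hv p)
  have e : ∀ τ, Θ τ + cf (zeta q.L (q.n b) j ω) =
      bg (q.n b) (zf τ) + cf (θ + zeta q.L (q.n b) j ω) + vf τ := fun τ => by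
    rw [cf_add, hΘ]; beta_reduce; abel
  have st : ∀ X ⊆ vis q b j U, ∀ τ ∈ O,
      ‖zf τ‖ ≤ t0 ∧ Strip (q.n b) (q.l j) q.h (q.L * q.h) X (vf τ) := fun X hX τ h =>
    ⟨t1 τ h, (t_T_strip q.L (q.n b) (q.l j) _ _ U X _ hL (l_pos q hL j)
      (near8 (by norm_num) hX)).2 (l_succ q j ▸ (ht τ h).2)⟩
  have hI : ∀ s B, DifferentiableOn ℂ (fun τ => q.It j x b (zf τ) (Θ τ) s B) O := fun s B =>
    (he s B O zf hO hz t1).neg.cexp.mul (gp_Ih_diff q hz dΘ b j _ B)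
  have hM : ∀ s B, DifferentiableOn ℂ (fun τ => (q.inp j x b (zf τ) (Θ τ)).M ω s B) O :=
    fun s B => ((gp_Ih_diff q hz (F := fun τ => Θ τ + cf (zeta q.L (q.n b) j ω))
      (fun p => (dΘ p).add_const _) b j _ B).fun_div (hI s B)
        fun _ _ => It_ne _ _ _ _ _ _ _ _).sub_const _
  have hK : ∀ s X, Conn X → X ⊆ vis q b j U →
      DifferentiableOn ℂ (fun τ => (q.inp j x b (zf τ) (Θ τ)).K ω s X) O := fun s X c h => by
    simp only [Par.inp, e]
    exact (hx.str.holK b s X hb0 ⟨h.trans vb, c⟩ _ (dir_add hθ hζ) O zf vf hO hz hv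
      (st X h)).fun_div (DifferentiableOn.fun_finsetProd fun B _ => hI s B)
        fun _ _ => prod_ne_zero_iff.2 fun _ _ => It_ne _ _ _ _ _ _ _ _
  have hN : ∀ X σ, Conn X → X ⊆ under q.L U →
      DifferentiableOn ℂ (fun τ => (q.inp j x b (zf τ) (Θ τ)).N ω X σ) O := fun X σ c h => by
    simp only [Par.inp, e]
    exact hx.str.holN b X σ hb0 ⟨(h.trans uv).trans vb, c⟩ _ (dir_add hθ hζ) O zf vf hO hz hv
      (st X (h.trans uv))
  exact ⟨(t_T_mem h_one _ (holA O) q.L 4 _ U (fun τ => (q.inp j x b (zf τ) (Θ τ)).It) _ _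
      (fun _ _ _ => 0) (by omega) hU.1 hU.2.1 (fun s B _ => ⟨hI s B, hM s B⟩) hK).1,
    (t_T_mem h_one _ (holA O) q.L 4 _ U (fun τ s B =>
      Complex.exp (-(x.a b (zf τ)).d s B) * q.It j x b (zf τ) (Θ τ) s B) _ _ _ (by omega)
      hU.1 hU.2.1 (fun s B k => ⟨(hx.str.hold b s B hb0 (vb (uv k)) O zf hO hz t1).neg.cexp.mul
        (hI s B), hM s B⟩) hK).2 hN⟩

omit hL hx hb in
theorem e_loc {O : Set ℂ} {zf : ℂ → ℂ} (hO : IsOpen O) (hz : DifferentiableOn ℂ zf O)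
    (ht : ∀ τ ∈ O, ‖zf τ‖ ≤ t0) {τ0 : ℂ} (h0 : τ0 ∈ O) : ∃ M : ℝ, (∀ s, |q.lam' j x s| ≤ M) ∧
      ∀ᶠ τ in 𝓝 τ0, ∀ s, ∀ B ∈ box (q.m b j), ‖q.e j x b (zf τ) s B‖ ≤ M := by
  let f : ℂ → ℝ := fun τ => ∑ s, ∑ B ∈ box (q.m b j), ‖q.e j x b (zf τ) s B‖
  have c : ContinuousAt f τ0 := tendsto_finsetSum _ fun s _ => tendsto_finsetSum _ fun B _ =>
    ((he s B O zf hO hz ht).differentiableAt (hO.mem_nhds h0)).continuousAt.norm
  have p1 : ∀ τ s, 0 ≤ ∑ B ∈ box (q.m b j), ‖q.e j x b (zf τ) s B‖ := fun τ s =>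
    sum_nonneg fun _ _ => norm_nonneg _
  have p2 : 0 ≤ f τ0 := sum_nonneg fun s _ => p1 τ0 s
  have p3 : 0 ≤ ∑ s, |q.lam' j x s| := sum_nonneg fun _ _ => abs_nonneg _
  refine ⟨f τ0 + 1 + ∑ s, |q.lam' j x s|, fun s => ?_,
    (c.eventually_le_const (lt_add_one _)).mono fun τ h s B hB => ?_⟩
  · linarith [single_le_sum (f := fun s => |q.lam' j x s|) (fun _ _ => abs_nonneg _) (mem_univ s)]
  · linarith [single_le_sum (f := fun B => ‖q.e j x b (zf τ) s B‖) (fun _ _ => norm_nonneg _) hB,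
      single_le_sum (f := fun s => ∑ B ∈ box (q.m b j), ‖q.e j x b (zf τ) s B‖)
        (fun s _ => p1 τ s) (mem_univ s)]

end

end Pool.Agent.Lib.MP_9cc147_pr.Cx.T

namespace Pool.Agent.Lib.MP_9cc147_pr.Cx
open T

theorem t_str (h_tra : S_tra) (h_one : S_one) (h_zel : S_zel) (h_ziso : S_ziso) (h_zmom : S_zmom) :
    S_str := by
  filter_upwards [fp_base, h_zmom, t_T_maj h_one h_zel h_zmom] with q ⟨hL, ho, hκ, hh, hε, _⟩ hmom
    hmaj
  intro t0 j x α ν ρ hx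
  have hm := t_T_meas h_one h_zel
  have he : ∀ b, Par.ok b (j + 1) → ∀ s B, Hz t0 fun z => q.e j x b z s B := fun b hb =>
    e_hol h_zel hL hκ hh hx (ok_pred hb) fun S k => ((hmom b j (ok_pred hb)).1 S k).1
  have hol : ∀ b U, Par.ok b (j + 1) → Pm (q.m b (j + 1)) U → ∀ θ, Dir (q.n b) θ →
      ∀ (O : Set ℂ) (zf : ℂ → ℂ) (vf : ℂ → Fld), IsOpen O → DifferentiableOn ℂ zf O →
      (∀ p, DifferentiableOn ℂ (fun τ => vf τ p) O) →
      (∀ τ ∈ O, ‖zf τ‖ ≤ t0 ∧ Strip (q.n b) (q.l (j + 1)) q.h (q.L * q.h) U (vf τ)) →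
      (∀ s, DifferentiableOn ℂ
        (fun τ => ∫ ω, q.J0 j x b (zf τ) U s (bg (q.n b) (zf τ) + cf θ + vf τ) ω ∂PP) O) ∧
      ∀ σ, DifferentiableOn ℂ
        (fun τ => ∫ ω, q.J1 j x b (zf τ) U σ (bg (q.n b) (zf τ) + cf θ + vf τ) ω ∂PP) O := by
    intro b U hb hU θ hθ O zf vf hO hz hv ht
    have a := J_hol hL hx hb (he b hb) h_one h_zel hU hθ hO hz hv ht
    have g : ∀ τ0 ∈ O, ∃ g : Om → ℝ, Integrable g PP ∧ ∀ᶠ τ in 𝓝 τ0, ∀ ω,
        (∀ s, ‖q.J0 j x b (zf τ) U s (bg (q.n b) (zf τ) + cf θ + vf τ) ω‖ ≤ g ω) ∧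
        ∀ σ, ‖q.J1 j x b (zf τ) U σ (bg (q.n b) (zf τ) + cf θ + vf τ) ω‖ ≤ g ω := fun τ0 h0 => by
      obtain ⟨M, m1, m2⟩ := e_loc (he b hb) hO hz (fun τ h => (ht τ h).1) h0
      obtain ⟨-, i, c, k⟩ := hmaj t0 j α ν ρ b θ U M hb hU hθ
      exact ⟨_, i.const_mul c, (m2.and (hO.eventually_mem h0)).mono fun τ h =>
        k x _ _ hx (ht τ h.2).1 (ht τ h.2).2 h.1 m1⟩
    exact ⟨fun s => t_T_hol PP O _ hO
        (fun τ _ => meas_sec ((hm q t0 j x b (zf τ) U hL hx.str hb hU).1 s) _)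
        (fun ω => (a ω).1 s) fun τ0 h0 =>
        let ⟨g, i, k⟩ := g τ0 h0; ⟨g, i, k.mono fun τ h ω => (h ω).1 s⟩,
      fun σ => t_T_hol PP O _ hO
        (fun τ _ => meas_sec ((hm q t0 j x b (zf τ) U hL hx.str hb hU).2 σ) _)
        (fun ω => (a ω).2 σ) fun τ0 h0 =>
        let ⟨g, i, k⟩ := g τ0 h0; ⟨g, i, k.mono fun τ h ω => (h ω).2 σ⟩⟩
  exact
  { locK := fun b z s U hb hU => ⟨(s_meas hm hL hx.str hb hU z).1 s,
      fun Θ Ξ e => (s_loc h_tra hm hL hx.str hb hU z e).1 s⟩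
    locN := fun b z U σ hb hU => ⟨(s_meas hm hL hx.str hb hU z).2 σ,
      fun Θ Ξ e => (s_loc h_tra hm hL hx.str hb hU z e).2 σ⟩
    holK := fun b s U hb hU θ hθ O zf vf hO hz hv ht => by
      obtain ⟨a0, a1⟩ := hol b U hb hU θ hθ O zf vf hO hz hv ht
      have t1 := fun τ h => (ht τ h).1
      have e := fun s => (DifferentiableOn.fun_sum (u := under q.L U) fun B _ =>
        et_hol (he b hb) s B O zf hO hz t1).cexp
      simp only [K_eq]
      refine ((e s).mul (a0 s)).add ?_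
      split_ifs
      · exact (DifferentiableOn.fun_sum fun B k =>
          d_hol hL hx hb (he b hb) s (hU.1 k) O zf hO hz t1).cexp.mul ((e 0).mul (a1 _))
      · exact differentiableOn_const _
    holN := fun b U σ hb hU θ hθ O zf vf hO hz hv ht => by
      simp only [N_eq]
      split_ifs
      · exact (DifferentiableOn.fun_sum fun B _ => et_hol (he b hb) 0 B O zf hO hz
          fun τ h => (ht τ h).1).cexp.mul ((hol b U hb hU θ hθ O zf vf hO hz hv ht).2 σ)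
      · exact differentiableOn_const _
    hold := fun b s B hb hB => d_hol hL hx hb (he b hb) s hB
    shK := fun b z s U Θ c hb hU => (s_sh h_tra hm hL hx.str hb hU z Θ c).1 s
    shN := fun b z U σ Θ c hb hU => (s_sh h_tra hm hL hx.str hb hU z Θ c).2 σ
    negK := fun b z s U Θ hb hU => (s_neg h_tra hm h_zel hL hx.str hb hU z Θ).1 s
    negN := fun b z U σ Θ hb hU => (s_neg h_tra hm h_zel hL hx.str hb hU z Θ).2 σ
    negd := fun b z s B hb hB => d_neg h_zel hL hx.str hb z s hB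
    cjK := fun b s U Θ hb hU => (s_cj h_tra hm h_zel hL hx.str hb hU Θ).1 s
    cjN := fun b U σ Θ hb hU => (s_cj h_tra hm h_zel hL hx.str hb hU Θ).2 σ
    cjd := fun b s B hb hB => Complex.conj_eq_iff_im.1 (d_cj h_zel hL hx.str hb s hB).symm
    farK := fun b z s U hb hU n => funext fun Θ => (s_far h_tra hm hL hx.str hb hU z Θ n).1 s
    farN := fun b z U σ hb hU n => funext fun Θ => (s_far h_tra hm hL hx.str hb hU z Θ n).2 σ
    fard := fun b z s B hb hB n => d_far hL hx.str hb z s hB n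
    isoK := fun b b' g c s U Θ hb hb' hU k =>
      (s_iso h_tra hm h_zel hL hx.str hb hU h_ziso ho hb' k Θ).1 s
    isoN := fun b b' g c U σ σ' Θ hb hb' hU k e =>
      (s_iso h_tra hm h_zel hL hx.str hb hU h_ziso ho hb' k Θ).2 σ σ' e
    isod := fun b b' g c s B hb hb' hB k => d_iso h_zel hL hx.str hb h_ziso ho hb' hB k s
    lam12 := lam'_12 h_zel h_ziso hL hx.str
    d0 := fun b z B => by simp [Par.step, Par.d', Par.D', Par.clamp, hx.str.d0, hε.le] }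

end Pool.Agent.Lib.MP_9cc147_pr.Cx
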